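import Mathlib

set_option autoImplicit false

/-! # The pairs `(n, ⌊α n + β⌋)` in residue classes -/

namespace Pool.Agent.Run7.h662.FCS

open Finset Filter

/-- integer combinations of `α` and `1` in a short interval -/
theorem comb (α : ℝ) (hα : Irrational α) (x ε : ℝ) (hε : 0 < ε) : ∃ h k : ℤ,
    x < h * α + k ∧ h * α + k < x + ε := by
  have hd : Dense (AddSubgroup.closure {α, (1 : ℝ)} : Set ℝ) := by
    rw [dense_addSubgroupClosure_pair_iff, div_one]
    exact hα
  obtain ⟨y, hy, hy1⟩ := hd.exists_mem_open isOpen_Ioo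
    (show (Set.Ioo x (x + ε)).Nonempty from ⟨x + ε / 2, by constructor <;> linarith⟩)
  rw [SetLike.mem_coe, AddSubgroup.mem_closure_pair] at hy
  obtain ⟨h, k, hk⟩ := hy
  refine ⟨h, k, ?_, ?_⟩
  · have := hy1.1
    rw [← hk] at this
    simpa using this
  · have := hy1.2
    rw [← hk] at this
    simpa using this

/-- the points `α m + t` in a short interval modulo one -/
theorem points (α : ℝ) (hα : Irrational α) (M : ℕ) (hM : 1 ≤ M) : ∃ X₀ : ℕ, ∀ X : ℕ, X₀ ≤ X →
    ∀ t u : ℝ, ∀ A : Finset ℕ, A ⊆ range X →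
      (∀ m ∈ A, ∃ l : ℤ, u ≤ α * m + t - l ∧ α * m + t - l < u + 1 / (M : ℝ)) →
      (A.card : ℝ) ≤ 4 * X / M := by
  classical
  have hM0 : (0 : ℝ) < M := by exact_mod_cast hM
  rcases Nat.lt_or_ge M 2 with hM2 | hM2
  · have : M = 1 := by omega
    subst this
    refine ⟨0, fun X _ t u A hA _ => ?_⟩
    have h1 : (A.card : ℝ) ≤ X := by
      exact_mod_cast (Finset.card_le_card hA).trans (Finset.card_range X).le
    have h2 : (0 : ℝ) ≤ X := Nat.cast_nonneg _
    push_cast
    linarith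
  · obtain ⟨M', hM'⟩ : ∃ M', M = M' + 1 := ⟨M - 1, by omega⟩
    have hM'0 : (0 : ℝ) < M' := by exact_mod_cast (by omega : 0 < M')
    have hMM : (M : ℝ) = M' + 1 := by rw [hM']; push_cast; ring
    have hε : 0 < 1 / (M' : ℝ) - 1 / M := by
      rw [sub_pos]
      apply one_div_lt_one_div_of_lt hM'0
      linarith
    choose h k hk1 hk2 using fun i : ℕ => comb α hα (i / M') _ hε
    obtain ⟨H, hH⟩ : ∃ H : ℕ, ∀ i < M', |h i| ≤ H := by
      refine ⟨∑ i ∈ range M', (h i).natAbs, fun i hi => ?_⟩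
      rw [Int.abs_eq_natAbs]
      exact_mod_cast Finset.single_le_sum (f := fun i => (h i).natAbs) (fun _ _ => Nat.zero_le _)
        (Finset.mem_range.2 hi)
    refine ⟨2 * H, fun X hX t u A hA hAu => ?_⟩
    choose! l hl1 hl2 using hAu
    have hcard : (range M' ×ˢ A).card ≤ (Finset.Ico (-(H : ℤ)) (X + H)).card := by
      refine Finset.card_le_card_of_injOn (fun p => (p.2 : ℤ) + h p.1) ?_ ?_
      · rintro ⟨i, m⟩ hp
        rw [Finset.mem_coe, Finset.mem_product] at hp
        obtain ⟨hi, hm⟩ := hp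
        simp only at hi hm
        have h1 := hH i (Finset.mem_range.1 hi)
        have h2 := Finset.mem_range.1 (hA hm)
        rw [abs_le] at h1
        rw [Finset.mem_coe, Finset.mem_Ico]
        simp only
        omega
      · rintro ⟨i, m⟩ hp ⟨i', m'⟩ hp' heq
        rw [Finset.mem_coe, Finset.mem_product] at hp hp'
        obtain ⟨hi, hm⟩ := hp
        obtain ⟨hi', hm'⟩ := hp'
        simp only at hi hm hi' hm' heq
        rw [Finset.mem_range] at hi hi'
        -- the common point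
        have key : ∀ (i m : ℕ), m ∈ A → i < M' →
            (i : ℝ) / M' < α * ((m : ℤ) + h i : ℤ) + t - u - ((l m - k i : ℤ) : ℝ) ∧
            α * ((m : ℤ) + h i : ℤ) + t - u - ((l m - k i : ℤ) : ℝ) < (i + 1 : ℝ) / M' := by
          intro i m hm _
          have e1 := hl1 m hm
          have e2 := hl2 m hm
          have e3 := hk1 i
          have e4 := hk2 i
          push_cast
          constructor
          · nlinarith
          · have : ((i : ℝ) + 1) / M' = i / M' + 1 / M' := by ring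
            rw [this]
            nlinarith
        obtain ⟨a1, a2⟩ := key i m hm hi
        obtain ⟨b1, b2⟩ := key i' m' hm' hi'
        rw [← heq] at b1 b2
        obtain ⟨y, hy⟩ : ∃ y : ℝ, y = α * ((m : ℤ) + h i : ℤ) + t - u := ⟨_, rfl⟩
        rw [← hy] at a1 a2 b1 b2
        have r1 : (i : ℝ) + 1 ≤ M' := by exact_mod_cast hi
        have r2 : (i' : ℝ) + 1 ≤ M' := by exact_mod_cast hi'
        have r3 : ((i : ℝ) + 1) / M' ≤ 1 := by rw [div_le_one hM'0]; exact r1
        have r4 : ((i' : ℝ) + 1) / M' ≤ 1 := by rw [div_le_one hM'0]; exact r2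
        have r5 : (0 : ℝ) ≤ i / M' := by positivity
        have r6 : (0 : ℝ) ≤ i' / M' := by positivity
        have f1 : ⌊y⌋ = l m - k i := by
          rw [Int.floor_eq_iff]
          constructor <;> linarith
        have f2 : ⌊y⌋ = l m' - k i' := by
          rw [Int.floor_eq_iff]
          constructor <;> linarith
        rw [← f1] at a1 a2
        rw [← f2] at b1 b2
        have c1 : (i : ℝ) < i' + 1 := by
          have := a1.trans b2
          rwa [div_lt_div_iff_of_pos_right hM'0] at this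
        have c2 : (i' : ℝ) < i + 1 := by
          have := b1.trans a2
          rwa [div_lt_div_iff_of_pos_right hM'0] at this
        have c3 : i = i' := by
          have d1 : i < i' + 1 := by exact_mod_cast c1
          have d2 : i' < i + 1 := by exact_mod_cast c2
          omega
        subst c3
        rw [Prod.mk.injEq]
        exact ⟨rfl, by omega⟩
    rw [Finset.card_product, Finset.card_range, Int.card_Ico] at hcard
    have h1 : M' * A.card ≤ 2 * X := by omega
    have h2 : (M' : ℝ) * A.card ≤ 2 * X := by exact_mod_cast h1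
    rw [le_div_iff₀ hM0, hMM]
    have h3 : (1 : ℝ) ≤ M' := by exact_mod_cast (by omega : 1 ≤ M')
    have h4 : (0 : ℝ) ≤ A.card := Nat.cast_nonneg _
    nlinarith

/-- the pairs `(n, ⌊α n + β⌋)` in residue classes -/
theorem beatty_classes (α β : ℝ) (hα : Irrational α) (hα0 : 0 < α) (M : ℕ) (hM : 1 ≤ M) :
    ∀ᶠ N : ℕ in atTop, ∀ a c : ℕ,
    ({n ∈ Icc 1 N | n % M = a ∧ ⌊α * n + β⌋₊ % M = c}.card : ℝ) ≤
      17 * (Icc 1 N).card / (M : ℝ) ^ 2 := by
  classical
  have hM0 : (0 : ℝ) < M := by exact_mod_cast hM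
  have hM1 : (1 : ℝ) ≤ M := by exact_mod_cast hM
  obtain ⟨X₀, hX₀⟩ := points α hα M hM
  obtain ⟨B, hB⟩ := exists_nat_gt (-β / α)
  filter_upwards [eventually_ge_atTop (M * X₀ + M ^ 2 * B + M)] with N hN a c
  have hMX : M * X₀ ≤ N := by omega
  have hMN : M ≤ N := by omega
  have hMB : M ^ 2 * B ≤ N := by omega
  obtain ⟨A, hA⟩ : ∃ A : Finset ℕ, A = (range (N / M + 1)).filter
    (fun m => B ≤ M * m + a ∧ ⌊α * (M * m + a : ℕ) + β⌋₊ % M = c) := ⟨_, rfl⟩
  have hX : X₀ ≤ N / M + 1 := by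
    have : X₀ ≤ N / M := (Nat.le_div_iff_mul_le hM).2 (by rw [mul_comm]; exact hMX)
    omega
  have hsub : {n ∈ Icc 1 N | n % M = a ∧ ⌊α * n + β⌋₊ % M = c} ⊆ range B ∪
      A.image (fun m => M * m + a) := by
    intro n hn
    rw [Finset.mem_filter, Finset.mem_Icc] at hn
    rw [Finset.mem_union, Finset.mem_range, Finset.mem_image]
    by_cases h : n < B
    · exact Or.inl h
    · right
      have hna : M * (n / M) + a = n := by rw [← hn.2.1]; exact Nat.div_add_mod n M
      refine ⟨n / M, ?_, hna⟩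
      rw [hA, Finset.mem_filter, Finset.mem_range, hna]
      refine ⟨?_, by omega, hn.2.2⟩
      have := Nat.div_le_div_right (c := M) hn.1.2
      omega
  have hAc := hX₀ (N / M + 1) hX ((α * a + β) / M) (c / M) A (by
    rw [hA]; exact Finset.filter_subset _ _) (by
    intro m hm
    rw [hA, Finset.mem_filter] at hm
    obtain ⟨-, hmB, hmc⟩ := hm
    obtain ⟨f, hf⟩ : ∃ f, f = ⌊α * (M * m + a : ℕ) + β⌋₊ := ⟨_, rfl⟩
    rw [← hf] at hmc
    have hpos : 0 ≤ α * (M * m + a : ℕ) + β := by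
      have h1 : (B : ℝ) ≤ (M * m + a : ℕ) := by exact_mod_cast hmB
      have h2 : -β / α < (M * m + a : ℕ) := hB.trans_le h1
      rw [div_lt_iff₀ hα0] at h2
      linarith
    have hf1 : (f : ℝ) ≤ α * (M * m + a : ℕ) + β := by rw [hf]; exact Nat.floor_le hpos
    have hf2 : α * (M * m + a : ℕ) + β < f + 1 := by rw [hf]; exact Nat.lt_floor_add_one _
    have hf3 : (f : ℝ) = M * ((f / M : ℕ) : ℝ) + c := by
      rw [← hmc]
      exact_mod_cast (Nat.div_add_mod f M).symm
    obtain ⟨g, hg⟩ : ∃ g : ℕ, g = f / M := ⟨_, rfl⟩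
    rw [← hg] at hf3
    refine ⟨(g : ℤ), ?_, ?_⟩
    · rw [div_le_iff₀ hM0]
      have : (α * m + (α * a + β) / M - ((g : ℤ) : ℝ)) * M =
          α * (M * m + a : ℕ) + β - M * (g : ℝ) := by
        push_cast
        field_simp
        ring
      rw [this]
      linarith
    · rw [← add_div, lt_div_iff₀ hM0]
      have : (α * m + (α * a + β) / M - ((g : ℤ) : ℝ)) * M =
          α * (M * m + a : ℕ) + β - M * (g : ℝ) := by
        push_cast
        field_simp
        ring
      rw [this]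
      linarith)
  have h1 : ({n ∈ Icc 1 N | n % M = a ∧ ⌊α * n + β⌋₊ % M = c}.card : ℝ) ≤ B + A.card := by
    have e1 := (Finset.card_le_card hsub).trans (Finset.card_union_le _ _)
    have e2 : (A.image (fun m => M * m + a)).card ≤ A.card := Finset.card_image_le
    rw [Finset.card_range] at e1
    exact_mod_cast e1.trans (by omega)
  have h2 : ((N / M + 1 : ℕ) : ℝ) ≤ 2 * N / M := by
    rw [le_div_iff₀ hM0]
    have e1 : N / M * M ≤ N := Nat.div_mul_le_self N M
    have e2 : (N / M + 1) * M ≤ 2 * N := by rw [add_mul, one_mul]; omega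
    exact_mod_cast e2
  have h3 : (B : ℝ) ≤ N / (M : ℝ) ^ 2 := by
    rw [le_div_iff₀ (by positivity)]
    have : B * M ^ 2 ≤ N := by rw [mul_comm]; exact hMB
    exact_mod_cast this
  rw [Nat.card_Icc, Nat.add_sub_cancel]
  have h4 : 4 * ((N / M + 1 : ℕ) : ℝ) / M ≤ 4 * (2 * N / M) / M := by gcongr
  have h5 : 4 * (2 * (N : ℝ) / M) / M = 8 * (N / (M : ℝ) ^ 2) := by field_simp; ring
  have h6 : (0 : ℝ) ≤ N / (M : ℝ) ^ 2 := by positivity
  calc _ ≤ (B : ℝ) + A.card := h1
    _ ≤ N / (M : ℝ) ^ 2 + 8 * (N / (M : ℝ) ^ 2) := by linarith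
    _ ≤ 17 * (N / (M : ℝ) ^ 2) := by linarith
    _ = _ := by ring

end Pool.Agent.Run7.h662.FCS
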