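import Pool.Agent.Run7.h662.FCS.MisRev

set_option autoImplicit false

/-! # Integers up to `N`: digit reversal and missing digits -/

namespace Pool.Agent.Run7.h662.FCS

open Finset Filter

/-- the digit reversal -/
def rev (b n : ℕ) : ℕ := Nat.ofDigits b (Nat.digits b n).reverse

theorem digits_eq (b n : ℕ) (hb : 2 ≤ b) :
    Nat.digits b n = (List.range (Nat.digits b n).length).map (fun i => n / b ^ i % b) := by
  apply List.ext_getElem
  · simp
  · intro i h1 h2
    rw [List.getElem_map, List.getElem_range, ← Nat.getD_digits n i hb, List.getD_eq_getElem _ _ h1]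

theorem R_list (b n : ℕ) : ∀ k, R b k n =
    Nat.ofDigits b ((List.range k).map (fun i => n / b ^ i % b)).reverse
  | 0 => by simp [R]
  | k + 1 => by
    unfold R
    rw [R_list b n k, List.range_succ, List.map_append, List.reverse_append]
    simp [Nat.ofDigits_cons]

theorem rev_eq (b n : ℕ) (hb : 2 ≤ b) : rev b n = R b (Nat.digits b n).length n := by
  rw [R_list, ← digits_eq b n hb]
  rfl

theorem R_lt (b : ℕ) (hb : 2 ≤ b) (n : ℕ) : ∀ k, R b k n < b ^ k
  | 0 => by simp [R]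
  | k + 1 => by
    have h1 := R_lt b hb n k
    have h2 : n / b ^ k % b < b := Nat.mod_lt _ (by omega)
    have h3 : R b (k + 1) n = n / b ^ k % b + b * R b k n := rfl
    rw [h3, pow_succ']
    have h4 : b * (R b k n + 1) ≤ b * b ^ k := Nat.mul_le_mul_left _ h1
    rw [mul_add, mul_one] at h4
    omega

theorem length_le (b : ℕ) (hb : 2 ≤ b) {n N : ℕ} (h : n ≤ N) :
    (Nat.digits b n).length ≤ Nat.log b N + 1 := by
  rcases Nat.eq_zero_or_pos n with rfl | hn
  · simp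
  · rw [Nat.length_digits b n (by omega) (by omega)]
    have := Nat.log_mono_right (b := b) h
    omega

theorem geom (q : ℝ) (hq : 2 ≤ q) (K : ℕ) : ∑ k ∈ range (K + 1), q ^ k ≤ 2 * q ^ K := by
  induction K with
  | zero => simp
  | succ K ih =>
    rw [Finset.sum_range_succ]
    have h : 2 * q ^ K ≤ q ^ (K + 1) := by
      rw [pow_succ']
      gcongr
    linarith

theorem layers (q : ℝ) (hq : 2 ≤ q) (c B : ℝ) (hc : 0 ≤ c) (hB : 0 ≤ B) (F : ℕ → ℝ) (k₀ : ℕ)
    (h0 : ∀ k < k₀, F k ≤ B) (h1 : ∀ k, k₀ ≤ k → F k ≤ c * q ^ k) (K : ℕ) :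
    ∑ k ∈ range (K + 1), F k ≤ k₀ * B + 2 * c * q ^ K := by
  have hq0 : 0 ≤ q := by linarith
  have h2 : ∀ k ∈ range (K + 1), F k ≤ (if k < k₀ then B else 0) + c * q ^ k := by
    intro k _
    split_ifs with h
    · have : 0 ≤ c * q ^ k := by positivity
      linarith [h0 k h]
    · rw [zero_add]
      exact h1 k (by omega)
  refine (Finset.sum_le_sum h2).trans ?_
  rw [Finset.sum_add_distrib, ← Finset.mul_sum, ← Finset.sum_filter, Finset.sum_const, nsmul_eq_mul]
  have h3 : (({k ∈ range (K + 1) | k < k₀}.card : ℕ) : ℝ) ≤ k₀ := by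
    have : {k ∈ range (K + 1) | k < k₀} ⊆ range k₀ := by
      intro k hk
      rw [Finset.mem_filter] at hk
      exact Finset.mem_range.2 hk.2
    exact_mod_cast (Finset.card_le_card this).trans (Finset.card_range k₀).le
  have h4 := geom q hq K
  calc (({k ∈ range (K + 1) | k < k₀}.card : ℕ) : ℝ) * B + c * ∑ k ∈ range (K + 1), q ^ k ≤
        k₀ * B + c * (2 * q ^ K) := by gcongr
    _ = _ := by ring

/-- the integers up to `N` with digits in `D` -/
def KK (b : ℕ) (D : Finset ℕ) (N : ℕ) : Finset ℕ := {n ∈ range (N + 1) | ∀ d ∈ Nat.digits b n, d ∈ D}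

theorem card_KK_ge (b : ℕ) (hb : 2 ≤ b) (D : Finset ℕ) (hD : D ⊆ range b) (h2 : 2 ≤ D.card) (N : ℕ)
    (hN : b ≤ N) : D.card ^ (Nat.log b N - 1) ≤ (KK b D N).card := by
  classical
  obtain ⟨d₀, hd₀, hd0⟩ : ∃ d ∈ D, d ≠ 0 := by
    obtain ⟨d₁, h₁, d₂, h₂, hne⟩ := Finset.one_lt_card.1 (show 1 < D.card by omega)
    by_cases h : d₁ = 0
    · exact ⟨d₂, h₂, fun h' => hne (by rw [h, h'])⟩
    · exact ⟨d₁, h₁, h⟩
  have hdb : d₀ < b := Finset.mem_range.1 (hD hd₀)
  have hL : 1 ≤ Nat.log b N := Nat.log_pos (by omega) hN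
  obtain ⟨l, hl⟩ : ∃ l, Nat.log b N = l + 1 := ⟨Nat.log b N - 1, by omega⟩
  rw [hl, Nat.add_sub_cancel, ← card_T b (by omega) D hD l]
  refine Finset.card_le_card_of_injOn (fun m => d₀ * b ^ l + m) ?_ ?_
  · intro m hm
    rw [Finset.mem_coe] at hm
    unfold T at hm
    rw [Finset.mem_filter, Finset.mem_range] at hm
    rw [Finset.mem_coe]
    unfold KK
    have h1 : d₀ * b ^ l + m < b ^ (l + 1) := by
      rw [pow_succ']
      have : (d₀ + 1) * b ^ l ≤ b * b ^ l := Nat.mul_le_mul_right _ (by omega)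
      rw [add_mul, one_mul] at this
      omega
    have h3 : b ^ (l + 1) ≤ N := by
      rw [← hl]
      exact Nat.pow_log_le_self b (by omega)
    rw [Finset.mem_filter, Finset.mem_range]
    refine ⟨by beta_reduce; omega, ?_⟩
    beta_reduce
    intro d hd
    rw [digits_eq b _ hb, List.mem_map] at hd
    obtain ⟨i, hi, rfl⟩ := hd
    rw [List.mem_range] at hi
    have h4 : (Nat.digits b (d₀ * b ^ l + m)).length ≤ l + 1 :=
      (Nat.digits_length_le_iff (by omega) _).2 h1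
    exact ((all_succ b (by omega) D l d₀ m hdb hm.1).2 ⟨hd₀, hm.2⟩) i (by omega)
  · intro m _ m' _ h
    exact Nat.add_left_cancel h

theorem KK_tendsto (b : ℕ) (hb : 2 ≤ b) (D : Finset ℕ) (hD : D ⊆ range b) (h2 : 2 ≤ D.card) (B : ℕ) :
    ∀ᶠ N : ℕ in atTop, B ≤ (KK b D N).card := by
  filter_upwards [eventually_ge_atTop (b ^ (B + 1))] with N hN
  have hbN : b ≤ N := le_trans (Nat.le_self_pow (by omega) b) hN
  refine le_trans ?_ (card_KK_ge b hb D hD h2 N hbN)
  have h3 : B + 1 ≤ Nat.log b N := by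
    rw [← Nat.log_pow (b := b) (by omega) (B + 1)]
    exact Nat.log_mono_right hN
  calc B ≤ 2 ^ B := Nat.lt_two_pow_self.le
    _ ≤ D.card ^ B := Nat.pow_le_pow_left h2 _
    _ ≤ _ := Nat.pow_le_pow_right (by omega) (by omega)

theorem card_KK_pow (b : ℕ) (hb : 2 ≤ b) (D : Finset ℕ) (hD : D ⊆ range b) (h2 : 2 ≤ D.card) :
    ∀ᶠ N : ℕ in atTop, (N : ℝ) ^ (Real.logb b 2 / 2) ≤ (KK b D N).card := by
  have hb2 : (2 : ℝ) ≤ b := by exact_mod_cast hb
  have hb0 : (0 : ℝ) < b := by linarith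
  have hθ : 0 < Real.logb b 2 := Real.logb_pos (by linarith) (by norm_num)
  have hev : ∀ᶠ Z : ℝ in atTop, 4 ≤ Z ^ (Real.logb b 2 / 2) :=
    (tendsto_rpow_atTop (by positivity)).eventually_ge_atTop _
  filter_upwards [eventually_ge_atTop b, tendsto_natCast_atTop_atTop.eventually hev] with N hN h4
  have h1 := card_KK_ge b hb D hD h2 N hN
  have hN0 : (0 : ℝ) < N := by exact_mod_cast (by omega : 0 < N)
  have hL : 1 ≤ Nat.log b N := Nat.log_pos (by omega) hN
  obtain ⟨l, hl⟩ : ∃ l, Nat.log b N = l + 1 := ⟨Nat.log b N - 1, by omega⟩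
  rw [hl, Nat.add_sub_cancel] at h1
  have h5 : N < b ^ (l + 2) := by
    have := Nat.lt_pow_succ_log_self (b := b) (by omega) N
    rw [hl] at this
    exact this
  have h6 : (N : ℝ) ^ (Real.logb b 2) ≤ 2 ^ (l + 2) := by
    calc (N : ℝ) ^ (Real.logb b 2) ≤ ((b : ℝ) ^ (l + 2)) ^ (Real.logb b 2) := by
          gcongr
          exact_mod_cast h5.le
      _ = ((b : ℝ) ^ (Real.logb b 2)) ^ (l + 2) := by
          rw [← Real.rpow_natCast, ← Real.rpow_mul hb0.le, mul_comm, Real.rpow_mul hb0.le,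
            Real.rpow_natCast]
      _ = _ := by rw [Real.rpow_logb hb0 (by linarith) (by norm_num)]
  have h7 : (N : ℝ) ^ (Real.logb b 2) = (N : ℝ) ^ (Real.logb b 2 / 2) * (N : ℝ) ^ (Real.logb b 2 / 2) := by
    rw [← Real.rpow_add hN0]; congr 1; ring
  have h8 : (2 : ℝ) ^ l ≤ (KK b D N).card := by
    have : (2 : ℝ) ^ l ≤ (D.card : ℝ) ^ l := by
      gcongr
      exact_mod_cast h2
    refine this.trans ?_
    exact_mod_cast h1
  have h9 : (0 : ℝ) < (N : ℝ) ^ (Real.logb b 2 / 2) := by positivity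
  have h10 : (2 : ℝ) ^ (l + 2) = 4 * 2 ^ l := by ring
  rw [h7, h10] at h6
  nlinarith

/-- Integers with missing digits in residue classes modulo numbers prime to the base. -/
theorem KK_classes (b : ℕ) (hb : 2 ≤ b) (D : Finset ℕ) (hD : D ⊆ range b) (h2 : 2 ≤ D.card) (M : ℕ)
    (hM : 1 ≤ M) (hMb : M.Coprime b) : ∀ᶠ N : ℕ in atTop, ∀ a : ℕ,
    ({n ∈ KK b D N | n % M = a}.card : ℝ) ≤
      (2 * ((b : ℝ) + 1) * (D.card : ℝ) ^ 2 + 1) * (KK b D N).card / M := by
  classical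
  have : NeZero M := ⟨by omega⟩
  obtain ⟨k₀, hk₀⟩ := count_T (M := M) b (by omega) D hD h2 hMb
  have hM0 : (0 : ℝ) < M := by exact_mod_cast hM
  have hq2 : (2 : ℝ) ≤ D.card := by exact_mod_cast h2
  have hq0 : (0 : ℝ) < D.card := by linarith
  filter_upwards [eventually_ge_atTop b, KK_tendsto b hb D hD h2 (k₀ * D.card ^ k₀ * M)]
    with N hN hbig a
  have hN1 : 1 ≤ N := by omega
  obtain ⟨K, hK⟩ : ∃ K, K = Nat.log b N + 1 := ⟨_, rfl⟩
  have hsub : {n ∈ KK b D N | n % M = a} ⊆ (range (K + 1)).biUnion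
      (fun k => {n ∈ T b D k | n % M = a}) := by
    intro n hn
    unfold KK at hn
    rw [Finset.mem_filter, Finset.mem_filter, Finset.mem_range] at hn
    rw [Finset.mem_biUnion]
    refine ⟨(Nat.digits b n).length, ?_, ?_⟩
    · rw [Finset.mem_range]
      have := length_le b hb (show n ≤ N by omega)
      omega
    · unfold T
      rw [Finset.mem_filter, Finset.mem_filter, Finset.mem_range]
      refine ⟨⟨Nat.lt_base_pow_length_digits (by omega), fun i hi => ?_⟩, hn.2⟩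
      apply hn.1.2
      rw [← Nat.getD_digits n i hb, List.getD_eq_getElem _ _ hi]
      exact List.getElem_mem hi
  have h1 : ({n ∈ KK b D N | n % M = a}.card : ℝ) ≤ ∑ k ∈ range (K + 1),
      ({n ∈ T b D k | n % M = a}.card : ℝ) := by
    exact_mod_cast (Finset.card_le_card hsub).trans Finset.card_biUnion_le
  have h3 := layers D.card hq2 (((b : ℝ) + 1) / M) ((D.card : ℝ) ^ k₀) (by positivity)
    (by positivity)
    (fun k => ({n ∈ T b D k | n % M = a}.card : ℝ)) k₀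
    (fun k hk => by
      have e1 : {n ∈ T b D k | n % M = a}.card ≤ D.card ^ k :=
        (Finset.card_filter_le _ _).trans (card_T b (by omega) D hD k).le
      have e2 : D.card ^ k ≤ D.card ^ k₀ := Nat.pow_le_pow_right (by omega) hk.le
      exact_mod_cast e1.trans e2)
    (fun k hk => (hk₀ k hk a).trans (le_of_eq (by ring))) K
  have h4 : (D.card : ℝ) ^ K ≤ (D.card : ℝ) ^ 2 * (KK b D N).card := by
    have e1 := card_KK_ge b hb D hD h2 N hN
    have hL : 1 ≤ Nat.log b N := Nat.log_pos (by omega) hN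
    obtain ⟨l, hl⟩ : ∃ l, Nat.log b N = l + 1 := ⟨Nat.log b N - 1, by omega⟩
    rw [hl, Nat.add_sub_cancel] at e1
    have e2 : (D.card : ℝ) ^ l ≤ (KK b D N).card := by exact_mod_cast e1
    have e3 : K = 2 + l := by omega
    rw [e3, pow_add]
    gcongr
  have h5 : (k₀ : ℝ) * (D.card : ℝ) ^ k₀ ≤ (KK b D N).card / M := by
    rw [le_div_iff₀ (by positivity)]
    exact_mod_cast hbig
  refine h1.trans (h3.trans ?_)
  have h6 : 2 * (((b : ℝ) + 1) / M) * (D.card : ℝ) ^ K ≤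
      2 * (((b : ℝ) + 1) / M) * ((D.card : ℝ) ^ 2 * (KK b D N).card) := by gcongr
  calc (k₀ : ℝ) * (D.card : ℝ) ^ k₀ + 2 * (((b : ℝ) + 1) / M) * (D.card : ℝ) ^ K ≤
        (KK b D N).card / M + 2 * (((b : ℝ) + 1) / M) * ((D.card : ℝ) ^ 2 * (KK b D N).card) := by
          linarith
    _ = _ := by ring

/-- Integers with missing digits and their reversals in residue classes modulo numbers prime to the
base. -/
theorem KK_rev_classes (b : ℕ) (hb : 2 ≤ b) (D : Finset ℕ) (hD : D ⊆ range b) (h2 : 2 ≤ D.card) (M : ℕ)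
    (hM : 1 ≤ M) (hMb : M.Coprime b) : ∀ᶠ N : ℕ in atTop, ∀ a c : ℕ,
    ({n ∈ KK b D N | n % M = a ∧ rev b n % M = c}.card : ℝ) ≤
      (2 * ((b : ℝ) ^ 6 + 1) * (D.card : ℝ) ^ 2 + 1) * (KK b D N).card / (M : ℝ) ^ 2 := by
  classical
  have : NeZero M := ⟨by omega⟩
  obtain ⟨k₀, hk₀⟩ := count_GG (M := M) b hb D hD h2 hMb
  have hM0 : (0 : ℝ) < M := by exact_mod_cast hM
  have hq2 : (2 : ℝ) ≤ D.card := by exact_mod_cast h2
  have hq0 : (0 : ℝ) < D.card := by linarith
  filter_upwards [eventually_ge_atTop b, KK_tendsto b hb D hD h2 (k₀ * D.card ^ k₀ * M ^ 2)]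
    with N hN hbig a c
  have hN1 : 1 ≤ N := by omega
  obtain ⟨K, hK⟩ : ∃ K, K = Nat.log b N + 1 := ⟨_, rfl⟩
  have hsub : {n ∈ KK b D N | n % M = a ∧ rev b n % M = c} ⊆ (range (K + 1)).biUnion
      (fun k => {n ∈ T b D k | n % M = a ∧ R b k n % M = c}) := by
    intro n hn
    unfold KK at hn
    rw [Finset.mem_filter, Finset.mem_filter, Finset.mem_range] at hn
    rw [Finset.mem_biUnion]
    refine ⟨(Nat.digits b n).length, ?_, ?_⟩
    · rw [Finset.mem_range]
      have := length_le b hb (show n ≤ N by omega)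
      omega
    · unfold T
      rw [Finset.mem_filter, Finset.mem_filter, Finset.mem_range, ← rev_eq b n hb]
      refine ⟨⟨Nat.lt_base_pow_length_digits (by omega), fun i hi => ?_⟩, hn.2⟩
      apply hn.1.2
      rw [← Nat.getD_digits n i hb, List.getD_eq_getElem _ _ hi]
      exact List.getElem_mem hi
  have h1 : ({n ∈ KK b D N | n % M = a ∧ rev b n % M = c}.card : ℝ) ≤ ∑ k ∈ range (K + 1),
      ({n ∈ T b D k | n % M = a ∧ R b k n % M = c}.card : ℝ) := by
    exact_mod_cast (Finset.card_le_card hsub).trans Finset.card_biUnion_le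
  have h3 := layers D.card hq2 (((b : ℝ) ^ 6 + 1) / (M : ℝ) ^ 2) ((D.card : ℝ) ^ k₀) (by positivity)
    (by positivity)
    (fun k => ({n ∈ T b D k | n % M = a ∧ R b k n % M = c}.card : ℝ)) k₀
    (fun k hk => by
      have e1 : {n ∈ T b D k | n % M = a ∧ R b k n % M = c}.card ≤ D.card ^ k :=
        (Finset.card_filter_le _ _).trans (card_T b (by omega) D hD k).le
      have e2 : D.card ^ k ≤ D.card ^ k₀ := Nat.pow_le_pow_right (by omega) hk.le
      exact_mod_cast e1.trans e2)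
    (fun k hk => (hk₀ k hk a c).trans (le_of_eq (by ring))) K
  have h4 : (D.card : ℝ) ^ K ≤ (D.card : ℝ) ^ 2 * (KK b D N).card := by
    have e1 := card_KK_ge b hb D hD h2 N hN
    have hL : 1 ≤ Nat.log b N := Nat.log_pos (by omega) hN
    obtain ⟨l, hl⟩ : ∃ l, Nat.log b N = l + 1 := ⟨Nat.log b N - 1, by omega⟩
    rw [hl, Nat.add_sub_cancel] at e1
    have e2 : (D.card : ℝ) ^ l ≤ (KK b D N).card := by exact_mod_cast e1
    have e3 : K = 2 + l := by omega
    rw [e3, pow_add]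
    gcongr
  have h5 : (k₀ : ℝ) * (D.card : ℝ) ^ k₀ ≤ (KK b D N).card / (M : ℝ) ^ 2 := by
    rw [le_div_iff₀ (by positivity)]
    exact_mod_cast hbig
  refine h1.trans (h3.trans ?_)
  have h6 : 2 * (((b : ℝ) ^ 6 + 1) / (M : ℝ) ^ 2) * (D.card : ℝ) ^ K ≤
      2 * (((b : ℝ) ^ 6 + 1) / (M : ℝ) ^ 2) * ((D.card : ℝ) ^ 2 * (KK b D N).card) := by gcongr
  calc (k₀ : ℝ) * (D.card : ℝ) ^ k₀ + 2 * (((b : ℝ) ^ 6 + 1) / (M : ℝ) ^ 2) * (D.card : ℝ) ^ K ≤
        (KK b D N).card / (M : ℝ) ^ 2 +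
          2 * (((b : ℝ) ^ 6 + 1) / (M : ℝ) ^ 2) * ((D.card : ℝ) ^ 2 * (KK b D N).card) := by
          linarith
    _ = _ := by ring

/-- The reversal of a number up to `N` is at most `b N`. -/
theorem rev_le (b : ℕ) (hb : 2 ≤ b) (n N : ℕ) (hn : n ≤ N) (hN : 1 ≤ N) : rev b n ≤ b * N := by
  rw [rev_eq b n hb]
  refine (R_lt b hb n _).le.trans ?_
  calc b ^ (Nat.digits b n).length ≤ b ^ (Nat.log b N + 1) :=
        Nat.pow_le_pow_right (by omega) (length_le b hb hn)
    _ = b * b ^ Nat.log b N := by rw [pow_succ']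
    _ ≤ b * N := Nat.mul_le_mul_left _ (Nat.pow_log_le_self b (by omega))

end Pool.Agent.Run7.h662.FCS
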