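import Pool.Agent.Run7.h662.FCS.Crit
import Pool.Agent.Run7.h662.FCS.Dig
import Pool.Agent.Run7.h662.FCS.Bty

set_option autoImplicit false

/-! # Corollaries of the criterion -/

namespace Pool.Agent.Run7.h662.FCS

open Finset Filter

/-- no class modulo a number prime to `Q` contains too many elements -/
def Spread (Q : ℕ) (C : ℝ) (S : ℕ → Finset ℕ) : Prop :=
  ∀ M : ℕ, 1 ≤ M → M.Coprime Q → ∀ᶠ N : ℕ in atTop, ∀ a : ℕ,
    ({n ∈ S N | n % M = a}.card : ℝ) ≤ C * (S N).card / M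

/-- the version of `crit` without arbitrary predicates -/
theorem crit' (A : ℕ) (θ : ℝ) (hθ : 0 < θ) : ∃ κ : ℝ, 0 < κ ∧
    ∀ {ι : Type} (s : ℕ → Finset ι) (x y : ℕ → ι → ℕ) (C : ℝ) (Q : ℕ), 0 < C → 0 < Q →
      (∀ M : ℕ, 1 ≤ M → M.Coprime Q → ∀ᶠ N : ℕ in atTop, ∀ a b : ℕ,
        ({i ∈ s N | x N i % M = a ∧ y N i % M = b}.card : ℝ) ≤ C * (s N).card / (M : ℝ) ^ 2) →
      (∀ᶠ N : ℕ in atTop, ∀ i ∈ s N, x N i ≤ N ^ A ∧ y N i ≤ N ^ A) →
      (∀ᶠ N : ℕ in atTop, ∀ a b : ℕ,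
        ({i ∈ s N | x N i = a ∧ y N i = b}.card : ℝ) ≤ (N : ℝ) ^ (-θ) * (s N).card) →
      ∀ ε : ℝ, 0 < ε → ∀ᶠ N : ℕ in atTop,
        ((({i : ι | i ∈ s N ∧ BadPair (Real.exp ((N : ℝ) ^ κ)) (x N i) (y N i)} : Set ι).ncard : ℕ)
          : ℝ) ≤ ε * (s N).card := by
  classical
  obtain ⟨κ, hκ, h⟩ := crit A θ hθ
  refine ⟨κ, hκ, fun {ι} s x y C Q hC hQ H1 H2 H3 ε hε => ?_⟩
  filter_upwards [h s x y C Q hC hQ H1 H2 H3 ε hε] with N hN
  have h1 := hN (fun i => BadPair (Real.exp ((N : ℝ) ^ κ)) (x N i) (y N i)) (fun i _ h => h)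
  refine le_trans (le_of_eq ?_) h1
  rw [← Set.ncard_coe_finset]
  congr 2
  ext i
  simp

/-- two sparse sets -/
theorem sparse (A : ℕ) (θ : ℝ) (hθ : 0 < θ) : ∃ κ : ℝ, 0 < κ ∧
    ∀ (S T : ℕ → Finset ℕ) (C C' : ℝ) (Q : ℕ), 0 < C → 0 < C' → 0 < Q →
      Spread Q C S → Spread Q C' T →
      (∀ᶠ N : ℕ in atTop, (∀ n ∈ S N, n ≤ N ^ A) ∧ ∀ n ∈ T N, n ≤ N ^ A) →
      (∀ᶠ N : ℕ in atTop, (N : ℝ) ^ θ ≤ (S N).card * (T N).card) →
      ∀ ε : ℝ, 0 < ε → ∀ᶠ N : ℕ in atTop,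
        ((({p : ℕ × ℕ | p.1 ∈ S N ∧ p.2 ∈ T N ∧ BadPair (Real.exp ((N : ℝ) ^ κ)) p.1 p.2} :
          Set (ℕ × ℕ)).ncard : ℕ) : ℝ) ≤ ε * ((S N).card * (T N).card) := by
  classical
  obtain ⟨κ, hκ, h⟩ := crit' A θ hθ
  refine ⟨κ, hκ, fun S T C C' Q hC hC' hQ hS hT hbd hcard ε hε => ?_⟩
  have key := h (fun N => S N ×ˢ T N) (fun _ p => p.1) (fun _ p => p.2) (C * C') Q (by positivity) hQ
    (fun M hM hMQ => by
      filter_upwards [hS M hM hMQ, hT M hM hMQ] with N h1 h2 a b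
      have hM0 : (0 : ℝ) < M := by exact_mod_cast hM
      have e1 : {p ∈ S N ×ˢ T N | p.1 % M = a ∧ p.2 % M = b} =
          {n ∈ S N | n % M = a} ×ˢ {n ∈ T N | n % M = b} := by
        ext ⟨u, v⟩
        simp only [Finset.mem_filter, Finset.mem_product]
        tauto
      rw [e1, Finset.card_product, Finset.card_product]
      push_cast
      calc ({n ∈ S N | n % M = a}.card : ℝ) * ({n ∈ T N | n % M = b}.card : ℝ) ≤
            (C * (S N).card / M) * (C' * (T N).card / M) := by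
            gcongr
            · exact h1 a
            · exact h2 b
        _ = _ := by ring)
    (by
      filter_upwards [hbd] with N h1 i hi
      rw [Finset.mem_product] at hi
      exact ⟨h1.1 _ hi.1, h1.2 _ hi.2⟩)
    (by
      filter_upwards [hcard, eventually_ge_atTop 1] with N h1 hN a b
      have hN0 : (0 : ℝ) < N := by exact_mod_cast hN
      rw [Finset.card_product]
      push_cast
      have e1 : {p ∈ S N ×ˢ T N | p.1 = a ∧ p.2 = b} ⊆ {(a, b)} := by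
        rintro ⟨u, v⟩ hp
        rw [Finset.mem_filter] at hp
        rw [Finset.mem_singleton, Prod.mk.injEq]
        exact hp.2
      have e2 : ({p ∈ S N ×ˢ T N | p.1 = a ∧ p.2 = b}.card : ℝ) ≤ 1 := by
        exact_mod_cast (Finset.card_le_card e1).trans (by simp)
      refine e2.trans ?_
      calc (1 : ℝ) = (N : ℝ) ^ (-θ) * (N : ℝ) ^ θ := by
            rw [← Real.rpow_add hN0]; simp
        _ ≤ _ := by gcongr)
    ε hε
  filter_upwards [key] with N hN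
  rw [Finset.card_product] at hN
  push_cast at hN
  refine le_trans (le_of_eq ?_) hN
  congr 2
  ext p
  simp only [Finset.mem_product, Set.mem_ofPred_eq, and_assoc]

/-- missing digits are spread -/
theorem KK_spread (b : ℕ) (hb : 2 ≤ b) (D : Finset ℕ) (hD : D ⊆ range b) (h2 : 2 ≤ D.card) (Q : ℕ)
    (hQ : b ∣ Q) : Spread Q (2 * ((b : ℝ) + 1) * (D.card : ℝ) ^ 2 + 1) (KK b D) :=
  fun M hM hMQ => KK_classes b hb D hD h2 M hM (hMQ.coprime_dvd_right hQ)

theorem missing (b b' : ℕ) (hb : 2 ≤ b) (hb' : 2 ≤ b') : ∃ κ : ℝ, 0 < κ ∧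
    ∀ D D' : Finset ℕ, D ⊆ range b → D' ⊆ range b' → 2 ≤ D.card → 2 ≤ D'.card →
      ∀ ε : ℝ, 0 < ε → ∀ᶠ N : ℕ in atTop,
        ((({p : ℕ × ℕ | p.1 ∈ KK b D N ∧ p.2 ∈ KK b' D' N ∧
          BadPair (Real.exp ((N : ℝ) ^ κ)) p.1 p.2} : Set (ℕ × ℕ)).ncard : ℕ) : ℝ) ≤
        ε * ((KK b D N).card * (KK b' D' N).card) := by
  have hθ : 0 < Real.logb b 2 / 2 := by
    have : 0 < Real.logb b 2 := Real.logb_pos (by exact_mod_cast (by omega : 1 < b)) (by norm_num)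
    positivity
  obtain ⟨κ, hκ, h⟩ := sparse 1 _ hθ
  refine ⟨κ, hκ, fun D D' hD hD' h2 h2' ε hε => ?_⟩
  refine h (KK b D) (KK b' D') _ _ (b * b') (by positivity) (by positivity)
    (Nat.mul_pos (by omega) (by omega)) (KK_spread b hb D hD h2 _ (Dvd.intro _ rfl))
    (KK_spread b' hb' D' hD' h2' _ (Dvd.intro_left _ rfl)) ?_ ?_ ε hε
  · refine Eventually.of_forall fun N => ⟨fun n hn => ?_, fun n hn => ?_⟩
    · unfold KK at hn
      rw [Finset.mem_filter, Finset.mem_range] at hn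
      rw [pow_one]
      omega
    · unfold KK at hn
      rw [Finset.mem_filter, Finset.mem_range] at hn
      rw [pow_one]
      omega
  · filter_upwards [card_KK_pow b hb D hD h2, KK_tendsto b' hb' D' hD' h2' 1] with N h3 h4
    have h5 : (1 : ℝ) ≤ (KK b' D' N).card := by exact_mod_cast h4
    have h6 : (0 : ℝ) ≤ (KK b D N).card := Nat.cast_nonneg _
    nlinarith

theorem reversal (b : ℕ) (hb : 2 ≤ b) : ∃ κ : ℝ, 0 < κ ∧
    ∀ D : Finset ℕ, D ⊆ range b → 2 ≤ D.card → ∀ ε : ℝ, 0 < ε → ∀ᶠ N : ℕ in atTop,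
      ((({n : ℕ | n ∈ KK b D N ∧ BadPair (Real.exp ((N : ℝ) ^ κ)) n (rev b n)} : Set ℕ).ncard : ℕ)
        : ℝ) ≤ ε * (KK b D N).card := by
  classical
  have hθ : 0 < Real.logb b 2 / 2 := by
    have : 0 < Real.logb b 2 := Real.logb_pos (by exact_mod_cast (by omega : 1 < b)) (by norm_num)
    positivity
  obtain ⟨κ, hκ, h⟩ := crit' 2 _ hθ
  refine ⟨κ, hκ, fun D hD h2 ε hε => ?_⟩
  refine h (KK b D) (fun _ n => n) (fun _ n => rev b n) _ b (by positivity) (by omega)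
    (fun M hM hMb => KK_rev_classes b hb D hD h2 M hM hMb) ?_ ?_ ε hε
  · filter_upwards [eventually_ge_atTop b] with N hN n hn
    unfold KK at hn
    rw [Finset.mem_filter, Finset.mem_range] at hn
    have h1 := rev_le b hb n N (by omega) (by omega)
    have h3 : b * N ≤ N ^ 2 := by
      rw [sq]
      exact Nat.mul_le_mul_right _ hN
    have h4 : N ≤ N ^ 2 := Nat.le_self_pow (by norm_num) N
    omega
  · filter_upwards [card_KK_pow b hb D hD h2, eventually_ge_atTop 1] with N h3 hN a c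
    have hN0 : (0 : ℝ) < N := by exact_mod_cast hN
    have e1 : {i ∈ KK b D N | i = a ∧ rev b i = c} ⊆ {a} := by
      intro i hi
      rw [Finset.mem_filter] at hi
      rw [Finset.mem_singleton]
      exact hi.2.1
    have e2 : ({i ∈ KK b D N | i = a ∧ rev b i = c}.card : ℝ) ≤ 1 := by
      exact_mod_cast (Finset.card_le_card e1).trans (by simp)
    refine e2.trans ?_
    calc (1 : ℝ) = (N : ℝ) ^ (-(Real.logb b 2 / 2)) * (N : ℝ) ^ (Real.logb b 2 / 2) := by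
          rw [← Real.rpow_add hN0]; simp
      _ ≤ _ := by gcongr

theorem beatty : ∃ κ : ℝ, 0 < κ ∧ ∀ α β : ℝ, Irrational α → 0 < α →
    ∀ ε : ℝ, 0 < ε → ∀ᶠ N : ℕ in atTop,
      ((({n : ℕ | 1 ≤ n ∧ n ≤ N ∧ BadPair (Real.exp ((N : ℝ) ^ κ)) n ⌊α * n + β⌋₊} : Set ℕ).ncard
        : ℕ) : ℝ) ≤ ε * N := by
  classical
  obtain ⟨κ, hκ, h⟩ := crit' 2 1 one_pos
  refine ⟨κ, hκ, fun α β hα hα0 ε hε => ?_⟩
  have key := h (fun N => Icc 1 N) (fun _ n => n) (fun _ n => ⌊α * n + β⌋₊) 17 1 (by norm_num) one_pos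
    (fun M hM _ => beatty_classes α β hα hα0 M hM) (by
      obtain ⟨B, hB⟩ := exists_nat_ge (α + |β|)
      filter_upwards [eventually_ge_atTop (B + 1)] with N hN n hn
      rw [Finset.mem_Icc] at hn
      have hN1 : (1 : ℝ) ≤ N := by exact_mod_cast (by omega : 1 ≤ N)
      have h4 : N ≤ N ^ 2 := Nat.le_self_pow (by norm_num) N
      refine ⟨by omega, ?_⟩
      have h1 : α * n + β ≤ (N ^ 2 : ℕ) := by
        have e1 : (n : ℝ) ≤ N := by exact_mod_cast hn.2
        have e2 : (B : ℝ) ≤ N := by exact_mod_cast (by omega : B ≤ N)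
        have e3 := le_abs_self β
        have e4 := abs_nonneg β
        push_cast
        calc α * n + β ≤ α * N + |β| * N := by nlinarith
          _ = (α + |β|) * N := by ring
          _ ≤ N * N := by gcongr; linarith
          _ = _ := by ring
      exact Nat.floor_le_of_le h1) (by
      filter_upwards [eventually_ge_atTop 1] with N hN a c
      have hN0 : (0 : ℝ) < N := by exact_mod_cast hN
      have e1 : {i ∈ Icc 1 N | i = a ∧ ⌊α * i + β⌋₊ = c} ⊆ {a} := by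
        intro i hi
        rw [Finset.mem_filter] at hi
        rw [Finset.mem_singleton]
        exact hi.2.1
      have e2 : ({i ∈ Icc 1 N | i = a ∧ ⌊α * i + β⌋₊ = c}.card : ℝ) ≤ 1 := by
        exact_mod_cast (Finset.card_le_card e1).trans (by simp)
      refine e2.trans ?_
      rw [Nat.card_Icc, Nat.add_sub_cancel, Real.rpow_neg_one]
      field_simp
      exact le_refl _) ε hε
  filter_upwards [key] with N hN
  rw [Nat.card_Icc, Nat.add_sub_cancel] at hN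
  refine le_trans (le_of_eq ?_) hN
  congr 2
  ext n
  simp only [Finset.mem_Icc, Set.mem_ofPred_eq, and_assoc]

end Pool.Agent.Run7.h662.FCS
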