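import Pool.Agent.Run7.h662.FCS.ClsQ
import Pool.Agent.N741.LD.Fin

set_option autoImplicit false

/-! # The Fermat-Catalan equation with two bases from arbitrary equidistributed families of pairs -/

namespace Pool.Agent.Run7.h662.FCS

open Finset Filter
open Pool.Agent.H374R2.Beal (Exceptional)
open Pool.Agent.H374R2.T (Good2)

/-- `x`, `y` are coprime and two of the bases of a solution with third base at most `W`, the exponents
are at least two, the third one is at least three if both exponents of `x` and `y` are even. -/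
def BadPair (W : ℝ) (x y : ℕ) : Prop := ∃ z p q r : ℕ, 1 ≤ x ∧ 1 ≤ y ∧ Nat.Coprime x y ∧ 1 ≤ z ∧
  (z : ℝ) ≤ W ∧ 2 ≤ p ∧ 2 ≤ q ∧ 2 ≤ r ∧ (3 ≤ r ∨ ¬ 2 ∣ p ∨ ¬ 2 ∣ q) ∧
  (x ^ p + y ^ q = z ^ r ∨ x ^ p + z ^ r = y ^ q ∨ y ^ q + z ^ r = x ^ p)

/-- The exceptional classes are rare along the family. -/
lemma sieve {Q : ℕ} {E : Set (ℕ × ℕ)} (hE : CNQ Q E) {ι : Type} (s : ℕ → Finset ι) (x y : ℕ → ι → ℕ) (C : ℝ)
    (hC : 0 < C)
    (H1 : ∀ M : ℕ, 1 ≤ M → M.Coprime Q → ∀ᶠ N : ℕ in atTop, ∀ a b : ℕ,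
      ({i ∈ s N | x N i % M = a ∧ y N i % M = b}.card : ℝ) ≤ C * (s N).card / (M : ℝ) ^ 2)
    (ε : ℝ) (hε : 0 < ε) :
    ∀ᶠ N : ℕ in atTop, ∀ (P : ι → Prop) [DecidablePred P],
      (∀ i ∈ s N, P i → (x N i, y N i) ∈ E) → (((s N).filter P).card : ℝ) ≤ ε * (s N).card := by
  classical
  obtain ⟨M, hM, hMQ, S, -, hS2, hS3⟩ := hE (ε / C) (by positivity)
  have hM0 : (0 : ℝ) < M := by exact_mod_cast hM
  filter_upwards [H1 M hM hMQ] with N hN P _ hP
  have hsub : (s N).filter P ⊆ S.biUnion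
      (fun t => {i ∈ s N | x N i % M = t.1 ∧ y N i % M = t.2}) := by
    intro i hi
    rw [Finset.mem_filter] at hi
    rw [Finset.mem_biUnion]
    exact ⟨_, hS3 _ (hP i hi.1 hi.2), by rw [Finset.mem_filter]; exact ⟨hi.1, rfl, rfl⟩⟩
  have h1 : (((s N).filter P).card : ℝ) ≤
      ∑ t ∈ S, ({i ∈ s N | x N i % M = t.1 ∧ y N i % M = t.2}.card : ℝ) := by
    exact_mod_cast (Finset.card_le_card hsub).trans Finset.card_biUnion_le
  refine h1.trans ((Finset.sum_le_sum fun t _ => hN t.1 t.2).trans ?_)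
  rw [Finset.sum_const, nsmul_eq_mul, ← mul_div_assoc, div_le_iff₀ (by positivity)]
  have h2 : (0 : ℝ) ≤ (s N).card := Nat.cast_nonneg _
  calc (S.card : ℝ) * (C * (s N).card) ≤ (ε / C * (M : ℝ) ^ 2) * (C * (s N).card) := by gcongr
    _ = _ := by field_simp

/-- A family of pairs of positive integers, not necessarily different, of polynomial size, in which no
pair occurs too often and no pair of classes modulo a fixed number is too popular. -/
theorem crit (A : ℕ) (θ : ℝ) (hθ : 0 < θ) : ∃ κ : ℝ, 0 < κ ∧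
    ∀ {ι : Type} (s : ℕ → Finset ι) (x y : ℕ → ι → ℕ) (C : ℝ) (Q : ℕ), 0 < C → 0 < Q →
      (∀ M : ℕ, 1 ≤ M → M.Coprime Q → ∀ᶠ N : ℕ in atTop, ∀ a b : ℕ,
        ({i ∈ s N | x N i % M = a ∧ y N i % M = b}.card : ℝ) ≤ C * (s N).card / (M : ℝ) ^ 2) →
      (∀ᶠ N : ℕ in atTop, ∀ i ∈ s N, x N i ≤ N ^ A ∧ y N i ≤ N ^ A) →
      (∀ᶠ N : ℕ in atTop, ∀ a b : ℕ,
        ({i ∈ s N | x N i = a ∧ y N i = b}.card : ℝ) ≤ (N : ℝ) ^ (-θ) * (s N).card) →
      ∀ ε : ℝ, 0 < ε → ∀ᶠ N : ℕ in atTop, ∀ (P : ι → Prop) [DecidablePred P],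
        (∀ i ∈ s N, P i → BadPair (Real.exp ((N : ℝ) ^ κ)) (x N i) (y N i)) →
          (((s N).filter P).card : ℝ) ≤ ε * (s N).card := by
  classical
  obtain ⟨R, c, N₀, hc, hL⟩ := Pool.Agent.N741.LD.main (θ / (2 * (A + 1))) (by positivity)
  refine ⟨c, hc, fun {ι} s x y C Q₀ hC hQ₀ H1 H2 H3 ε hε => ?_⟩
  have h4 := sieve (cn_small hQ₀ R) s x y C hC H1 (ε / 2) (by positivity)
  have h5 : ∀ᶠ Z : ℝ in atTop, Z ^ (-(θ / 2)) ≤ ε / 2 := by
    have := tendsto_rpow_neg_atTop (show 0 < θ / 2 by positivity)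
    exact (this.eventually (gt_mem_nhds (show (0 : ℝ) < ε / 2 by positivity))).mono
      fun _ h => le_of_lt h
  filter_upwards [H2, H3, h4, tendsto_natCast_atTop_atTop.eventually h5,
    eventually_ge_atTop (max N₀ 1)] with N hN2 hN3 hN4 hN5 hNN P _ hP
  have hN1 : 1 ≤ N := (le_max_right _ _).trans hNN
  have hN1' : (1 : ℝ) ≤ N := by exact_mod_cast hN1
  have hN0 : (0 : ℝ) < N := by linarith
  set N' : ℕ := N ^ (A + 1) with hN'
  have hN'N : N ≤ N' := by
    rw [hN']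
    exact Nat.le_self_pow (by omega) N
  obtain ⟨hfin, hnc⟩ := hL N' (((le_max_left _ _).trans hNN).trans hN'N)
  set Q : Set (ℕ × ℕ × ℕ × ℕ × ℕ) := Pool.Agent.N741.LD.Sols N' R (Real.exp ((N' : ℝ) ^ c)) with hQ
  set T : Finset (ℕ × ℕ) := hfin.toFinset.image (fun v => (v.1, v.2.1)) with hT
  have hTc : (T.card : ℝ) ≤ (N : ℝ) ^ (θ / 2) := by
    have h1 : T.card ≤ Q.ncard := by
      rw [Set.ncard_eq_toFinset_card Q hfin]
      exact Finset.card_image_le
    have h2 : (T.card : ℝ) ≤ (N' : ℝ) ^ (θ / (2 * (A + 1))) := by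
      refine le_trans ?_ hnc
      exact_mod_cast h1
    refine h2.trans (le_of_eq ?_)
    rw [hN']
    push_cast
    rw [← Real.rpow_natCast, ← Real.rpow_mul hN0.le]
    congr 1
    push_cast
    field_simp
  set P₀ : ι → Prop := fun i =>
    (x N i, y N i) ∈ ({p | ∃ n, 3 ≤ n ∧ n < R ∧ p ∈ Exceptional n} ∪
    ({p | ¬ Good2 p.1 p.2} ∪ Prod.swap ⁻¹' {p | ¬ Good2 p.1 p.2}) : Set (ℕ × ℕ)) with hP₀
  set P₁ : ι → Prop := fun i => (x N i, y N i) ∈ T with hP₁
  have hcover : (s N).filter P ⊆ (s N).filter P₀ ∪ (s N).filter P₁ := by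
    intro i hi
    rw [Finset.mem_filter] at hi
    obtain ⟨his, hPi⟩ := hi
    obtain ⟨z, p, q, r, hx, hy, hco, hz, hzW, hp, hq, hr, hpar, heq⟩ := hP i his hPi
    rw [Finset.mem_union, Finset.mem_filter, Finset.mem_filter]
    rcases Nat.lt_or_ge r R with hrR | hrR
    · left
      refine ⟨his, ?_⟩
      rcases Nat.lt_or_ge r 3 with hr3 | hr3
      · have hr2 : r = 2 := by omega
        right
        by_contra hcon
        rw [Set.mem_union, not_or] at hcon
        obtain ⟨h1, h2⟩ := hcon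
        simp only [Set.mem_ofPred_eq, not_not, Set.mem_preimage, Prod.swap_prod_mk] at h1 h2
        rw [hr2] at heq
        have e1 : 2 ∣ q := Pool.Agent.H374R2.T.Good2.even (m := 1) (w := z) (x := p) h1 (by omega)
          (by rw [mul_one]; exact heq)
        have e2 : 2 ∣ p := Pool.Agent.H374R2.T.Good2.even (m := 1) (w := z) (x := q) h2 (by omega)
          (by
            rw [mul_one]
            rcases heq with h | h | h
            · left; rw [add_comm]; exact h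
            · right; right; exact h
            · right; left; exact h)
        rcases hpar with h | h | h
        · omega
        · exact h e2
        · exact h e1
      · left
        exact ⟨r, hr3, hrR, hx, hy, hco, p, q, z, by omega, by omega, by omega, heq⟩
    · right
      refine ⟨his, ?_⟩
      show (x N i, y N i) ∈ T
      rw [hT, Finset.mem_image]
      refine ⟨(x N i, y N i, x N i ^ p, y N i ^ q, z ^ r), ?_, rfl⟩
      rw [Set.Finite.mem_toFinset, hQ]
      obtain ⟨hb1, hb2⟩ := hN2 i his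
      have hpow : N ^ A ≤ N' := Nat.pow_le_pow_right hN1 (by omega)
      refine ⟨x N i, y N i, z, p, q, r, hx, hb1.trans hpow, hy, hb2.trans hpow, hco, hz, ?_, hp, hq,
        hrR, heq, rfl⟩
      refine hzW.trans ?_
      rw [Real.exp_le_exp]
      gcongr
  have h0 := hN4 P₀ (fun i _ h => h)
  have h1 : (((s N).filter P₁).card : ℝ) ≤ T.card * ((N : ℝ) ^ (-θ) * (s N).card) := by
    have hsub : (s N).filter P₁ ⊆ T.biUnion (fun t => {i ∈ s N | x N i = t.1 ∧ y N i = t.2}) := by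
      intro i hi
      rw [Finset.mem_filter] at hi
      rw [Finset.mem_biUnion]
      exact ⟨_, hi.2, by rw [Finset.mem_filter]; exact ⟨hi.1, rfl, rfl⟩⟩
    have h2 : (((s N).filter P₁).card : ℝ) ≤
        ∑ t ∈ T, ({i ∈ s N | x N i = t.1 ∧ y N i = t.2}.card : ℝ) := by
      exact_mod_cast (Finset.card_le_card hsub).trans Finset.card_biUnion_le
    refine h2.trans ((Finset.sum_le_sum fun t _ => hN3 t.1 t.2).trans ?_)
    rw [Finset.sum_const, nsmul_eq_mul]
  have h2 : (((s N).filter P).card : ℝ) ≤ ((s N).filter P₀).card + ((s N).filter P₁).card := by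
    exact_mod_cast (Finset.card_le_card hcover).trans (Finset.card_union_le _ _)
  have h3 : (T.card : ℝ) * ((N : ℝ) ^ (-θ) * (s N).card) ≤ ε / 2 * (s N).card := by
    calc (T.card : ℝ) * ((N : ℝ) ^ (-θ) * (s N).card) ≤
          (N : ℝ) ^ (θ / 2) * ((N : ℝ) ^ (-θ) * (s N).card) := by gcongr
      _ = (N : ℝ) ^ (-(θ / 2)) * (s N).card := by
          rw [← mul_assoc, ← Real.rpow_add hN0]
          congr 2
          ring
      _ ≤ _ := by gcongr
  linarith

end Pool.Agent.Run7.h662.FCS
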