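import Pool.Agent.Run7.h662.FCS.Rev

set_option autoImplicit false

/-! # Integers with missing digits in residue classes -/

namespace Pool.Agent.Run7.h662.FCS

open Finset

/-- the strings of `k` digits from `D` -/
def T (b : ℕ) (D : Finset ℕ) (k : ℕ) : Finset ℕ := {n ∈ range (b ^ k) | ∀ i < k, n / b ^ i % b ∈ D}

lemma low_digit (b : ℕ) (hb : 0 < b) (k d m i : ℕ) (hi : i < k) :
    (d * b ^ k + m) / b ^ i % b = m / b ^ i % b := by
  obtain ⟨j, rfl⟩ : ∃ j, k = i + 1 + j := ⟨k - (i + 1), by omega⟩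
  have h1 : d * b ^ (i + 1 + j) + m = m + b ^ i * (b * (d * b ^ j)) := by ring
  rw [h1, Nat.add_mul_div_left _ _ (pow_pos hb i), Nat.add_mul_mod_self_left]

lemma top_digit (b : ℕ) (hb : 0 < b) (k d m : ℕ) (hd : d < b) (hm : m < b ^ k) :
    (d * b ^ k + m) / b ^ k % b = d := by
  have h2 : (d * b ^ k + m) / b ^ k = d := by
    rw [add_comm, Nat.add_mul_div_right _ _ (pow_pos hb k), Nat.div_eq_of_lt hm, zero_add]
  rw [h2, Nat.mod_eq_of_lt hd]

lemma all_succ (b : ℕ) (hb : 0 < b) (D : Finset ℕ) (k d m : ℕ) (hd : d < b) (hm : m < b ^ k) :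
    (∀ i < k + 1, (d * b ^ k + m) / b ^ i % b ∈ D) ↔ d ∈ D ∧ ∀ i < k, m / b ^ i % b ∈ D := by
  constructor
  · intro h
    refine ⟨?_, fun i hi => ?_⟩
    · have := h k (by omega)
      rwa [top_digit b hb k d m hd hm] at this
    · have := h i (by omega)
      rwa [low_digit b hb k d m i hi] at this
  · rintro ⟨h1, h2⟩ i hi
    rcases Nat.lt_or_ge i k with h | h
    · rw [low_digit b hb k d m i h]
      exact h2 i h
    · have : i = k := by omega
      subst this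
      rw [top_digit b hb i d m hd hm]
      exact h1

section

variable {M : ℕ} [NeZero M]

/-- the digit sum of characters -/
noncomputable def DD (D : Finset ℕ) (u : ZMod M) : ℂ := ∑ d ∈ D, ZMod.stdAddChar ((d : ZMod M) * u)

/-- the exponential sum -/
noncomputable def HH (b : ℕ) (D : Finset ℕ) (k : ℕ) (α : ZMod M) : ℂ :=
  ∑ n ∈ T b D k, ZMod.stdAddChar (α * (n : ZMod M))

theorem HH_succ (b : ℕ) (hb : 0 < b) (D : Finset ℕ) (hD : D ⊆ range b) (k : ℕ) (α : ZMod M) :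
    HH b D (k + 1) α = DD D (α * (b : ZMod M) ^ k) * HH b D k α := by
  classical
  unfold HH DD T
  rw [pow_succ', Finset.sum_filter, sum_split, Finset.sum_filter]
  have h1 : ∑ d ∈ D, (ZMod.stdAddChar ((d : ZMod M) * (α * (b : ZMod M) ^ k)) : ℂ) =
      ∑ d ∈ range b, if d ∈ D then (ZMod.stdAddChar ((d : ZMod M) * (α * (b : ZMod M) ^ k)) : ℂ)
        else 0 := by
    rw [← Finset.sum_filter]
    congr 1
    ext d
    rw [Finset.mem_filter]
    exact ⟨fun h => ⟨hD h, h⟩, fun h => h.2⟩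
  rw [h1, Finset.sum_mul_sum]
  refine Finset.sum_congr rfl fun d hd => Finset.sum_congr rfl fun m hm => ?_
  rw [Finset.mem_range] at hd hm
  rw [if_congr (all_succ b hb D k d m hd hm) rfl rfl]
  by_cases h2 : d ∈ D <;> by_cases h3 : ∀ i < k, m / b ^ i % b ∈ D
  · rw [if_pos ⟨h2, h3⟩, if_pos h2, if_pos h3, ← AddChar.map_add_eq_mul]
    congr 1
    push_cast
    ring
  · rw [if_neg (fun h => h3 h.2), if_neg h3, mul_zero]
  · rw [if_neg (fun h => h2 h.1), if_neg h2, zero_mul]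
  · rw [if_neg (fun h => h2 h.1), if_neg h2, zero_mul]

theorem HH_prod (b : ℕ) (hb : 0 < b) (D : Finset ℕ) (hD : D ⊆ range b) (k : ℕ) (α : ZMod M) :
    HH b D k α = ∏ j ∈ range k, DD D (α * (b : ZMod M) ^ j) := by
  induction k with
  | zero =>
    unfold HH T
    simp
  | succ k ih =>
    rw [HH_succ b hb D hD, ih, Finset.prod_range_succ, mul_comm]

theorem norm_DD_le (D : Finset ℕ) (u : ZMod M) : ‖DD D u‖ ≤ D.card := by
  unfold DD
  refine (norm_sum_le _ _).trans ?_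
  refine (Finset.sum_le_sum (g := fun _ => (1 : ℝ)) fun d _ => ?_).trans (by simp)
  rw [AddChar.norm_apply]

theorem norm_DD_lt (D : Finset ℕ) (d₁ d₂ : ℕ) (h₁ : d₁ ∈ D) (h₂ : d₂ ∈ D) (u : ZMod M)
    (hu : (d₁ : ZMod M) * u ≠ (d₂ : ZMod M) * u) : ‖DD D u‖ < D.card := by
  classical
  have hne : d₁ ≠ d₂ := fun h => hu (by rw [h])
  have h2' : d₂ ∈ D.erase d₁ := Finset.mem_erase.2 ⟨hne.symm, h₂⟩
  have h2 : DD D u = (ZMod.stdAddChar ((d₁ : ZMod M) * u) + ZMod.stdAddChar ((d₂ : ZMod M) * u)) +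
      ∑ d ∈ (D.erase d₁).erase d₂, (ZMod.stdAddChar ((d : ZMod M) * u) : ℂ) := by
    unfold DD
    rw [← Finset.add_sum_erase D _ h₁, ← Finset.add_sum_erase (D.erase d₁) _ h2', add_assoc]
  have hcard : ((D.erase d₁).erase d₂).card + 2 = D.card := by
    rw [Finset.card_erase_of_mem h2', Finset.card_erase_of_mem h₁]
    have : 2 ≤ D.card := by
      rw [← Finset.card_pair hne]
      exact Finset.card_le_card (by
        intro x hx
        rw [Finset.mem_insert, Finset.mem_singleton] at hx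
        rcases hx with rfl | rfl <;> assumption)
    omega
  have h3 : ‖∑ d ∈ (D.erase d₁).erase d₂, (ZMod.stdAddChar ((d : ZMod M) * u) : ℂ)‖ ≤
      ((D.erase d₁).erase d₂).card := by
    refine (norm_sum_le _ _).trans ?_
    refine (Finset.sum_le_sum (g := fun _ => (1 : ℝ)) fun d _ => ?_).trans (by simp)
    rw [AddChar.norm_apply]
  have h4 : ‖(ZMod.stdAddChar ((d₁ : ZMod M) * u) : ℂ) + ZMod.stdAddChar ((d₂ : ZMod M) * u)‖ < 2 := by
    have e1 : ‖(ZMod.stdAddChar ((d₁ : ZMod M) * u) : ℂ)‖ = 1 := AddChar.norm_apply _ _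
    have e2 : ‖(ZMod.stdAddChar ((d₂ : ZMod M) * u) : ℂ)‖ = 1 := AddChar.norm_apply _ _
    have h6 : ¬ SameRay ℝ (ZMod.stdAddChar ((d₁ : ZMod M) * u) : ℂ)
        (ZMod.stdAddChar ((d₂ : ZMod M) * u)) := by
      intro h
      apply hu
      apply ZMod.injective_stdAddChar
      have := h.norm_smul_eq
      rw [e1, e2, one_smul, one_smul] at this
      exact this.symm
    have h7 := norm_add_lt_of_not_sameRay h6
    rw [e1, e2] at h7
    linarith
  rw [h2]
  refine lt_of_le_of_lt (norm_add_le _ _) ?_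
  have h8 : (D.card : ℝ) = ((D.erase d₁).erase d₂).card + 2 := by exact_mod_cast hcard.symm
  rw [h8]
  linarith

theorem card_T (b : ℕ) (hb : 0 < b) (D : Finset ℕ) (hD : D ⊆ range b) (k : ℕ) :
    (T b D k).card = D.card ^ k := by
  have h := HH_prod (M := 1) b hb D hD k 0
  unfold HH DD at h
  simp only [zero_mul, mul_zero, AddChar.map_zero_eq_one, Finset.sum_const, Finset.prod_const,
    nsmul_eq_mul, mul_one, Finset.card_range] at h
  exact_mod_cast h

theorem sum_HH (b : ℕ) (hb : 0 < b) (D : Finset ℕ) (hD : D ⊆ range b) (h2 : 2 ≤ D.card)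
    (hMb : M.Coprime b) : ∃ k₀ : ℕ, ∀ k : ℕ, k₀ ≤ k →
    ∑ α : ZMod M, ‖HH b D k α‖ ≤ ((b : ℝ) + 1) * (D.card : ℝ) ^ k := by
  classical
  obtain ⟨d₁, h₁, d₂, h₂, hne⟩ := Finset.one_lt_card.1 (show 1 < D.card by omega)
  wlog hlt : d₂ < d₁ generalizing d₁ d₂
  · exact this d₂ h₂ d₁ h₁ hne.symm (by omega)
  have hM : 0 < M := Nat.pos_of_ne_zero (NeZero.ne M)
  have hM0 : (0 : ℝ) < M := by exact_mod_cast hM
  have hD0 : (0 : ℝ) < D.card := by exact_mod_cast (by omega : 0 < D.card)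
  have hdb : d₁ < b := Finset.mem_range.1 (hD h₁)
  -- the bound for the factors
  obtain ⟨ρ, hρ0, hρ1, hρ⟩ : ∃ ρ : ℝ, 0 < ρ ∧ ρ < 1 ∧ ∀ u : ZMod M,
      (d₁ : ZMod M) * u ≠ (d₂ : ZMod M) * u → ‖DD D u‖ ≤ D.card * ρ := by
    by_cases hn : (univ.filter (fun u : ZMod M => (d₁ : ZMod M) * u ≠ (d₂ : ZMod M) * u)).Nonempty
    · obtain ⟨u₀, hu₀, hmax⟩ := Finset.exists_max_image _ (fun u : ZMod M => ‖DD D u‖) hn
      rw [Finset.mem_filter] at hu₀
      have h1 := norm_DD_lt D d₁ d₂ h₁ h₂ u₀ hu₀.2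
      have h4 : ‖DD D u₀‖ / D.card < 1 := by rw [div_lt_one hD0]; exact h1
      refine ⟨(‖DD D u₀‖ / D.card + 1) / 2, by positivity, by linarith, fun u hu => ?_⟩
      have h2 := hmax u (by rw [Finset.mem_filter]; exact ⟨Finset.mem_univ _, hu⟩)
      have h3 : ‖DD D u₀‖ = D.card * (‖DD D u₀‖ / D.card) := by field_simp
      calc ‖DD D u‖ ≤ ‖DD D u₀‖ := h2
        _ = D.card * (‖DD D u₀‖ / D.card) := h3
        _ ≤ _ := mul_le_mul_of_nonneg_left (by linarith) hD0.le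
    · refine ⟨1 / 2, by norm_num, by norm_num, fun u hu => ?_⟩
      exact absurd ⟨u, by rw [Finset.mem_filter]; exact ⟨Finset.mem_univ _, hu⟩⟩ hn
  obtain ⟨L, hL⟩ := exists_pow_lt_of_lt_one (show (0 : ℝ) < 1 / (M : ℝ) by positivity) hρ1
  refine ⟨L, fun k hk => ?_⟩
  have hunit : IsUnit (b : ZMod M) := (ZMod.isUnit_iff_coprime b M).2 hMb.symm
  have hbd : ∀ α : ZMod M, ‖HH b D k α‖ ≤ (D.card : ℝ) ^ k := by
    intro α
    rw [HH_prod b hb D hD, norm_prod]
    refine (Finset.prod_le_prod (fun _ _ => norm_nonneg _) fun j _ => norm_DD_le D _).trans ?_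
    rw [Finset.prod_const, Finset.card_range]
  have hpt : ∀ α : ZMod M, ‖HH b D k α‖ ≤ (D.card : ℝ) ^ k / M +
      if α * ((d₁ - d₂ : ℕ) : ZMod M) = 0 then (D.card : ℝ) ^ k else 0 := by
    intro α
    by_cases h : α * ((d₁ - d₂ : ℕ) : ZMod M) = 0
    · rw [if_pos h]
      have : (0 : ℝ) ≤ (D.card : ℝ) ^ k / M := by positivity
      linarith [hbd α]
    · rw [if_neg h, add_zero]
      rw [HH_prod b hb D hD, norm_prod]
      have h2 : ∀ j ∈ range k, ‖DD D (α * (b : ZMod M) ^ j)‖ ≤ D.card * ρ := by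
        intro j _
        apply hρ
        intro h3
        apply h
        have h4 : (α * ((d₁ : ZMod M) - d₂)) * (b : ZMod M) ^ j = 0 := by
          linear_combination h3
        rw [Nat.cast_sub hlt.le]
        exact ((hunit.pow j).mul_left_eq_zero).1 h4
      refine (Finset.prod_le_prod (fun _ _ => norm_nonneg _) h2).trans ?_
      rw [Finset.prod_const, Finset.card_range, mul_pow, div_eq_mul_one_div]
      refine mul_le_mul_of_nonneg_left ?_ (by positivity)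
      exact (pow_le_pow_of_le_one hρ0.le hρ1.le hk).trans hL.le
  refine (Finset.sum_le_sum fun α _ => hpt α).trans ?_
  rw [Finset.sum_add_distrib, Finset.sum_const, Finset.card_univ, ZMod.card, nsmul_eq_mul]
  have h3 : (M : ℝ) * ((D.card : ℝ) ^ k / M) = (D.card : ℝ) ^ k := by field_simp
  have hc := card_ker (M := M) (d₁ - d₂) (by omega)
  rw [h3, ← Finset.sum_filter, Finset.sum_const, nsmul_eq_mul]
  have h4 : ((univ.filter (fun x : ZMod M => x * ((d₁ - d₂ : ℕ) : ZMod M) = 0)).card : ℝ) ≤ b := by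
    exact_mod_cast hc.trans (by omega)
  have h5 : (0 : ℝ) ≤ (D.card : ℝ) ^ k := by positivity
  calc (D.card : ℝ) ^ k + ((univ.filter (fun x : ZMod M =>
        x * ((d₁ - d₂ : ℕ) : ZMod M) = 0)).card : ℝ) * (D.card : ℝ) ^ k ≤
        (D.card : ℝ) ^ k + b * (D.card : ℝ) ^ k := by gcongr
    _ = _ := by ring

/-- strings of `k` digits from `D` in a given class -/
theorem count_T (b : ℕ) (hb : 0 < b) (D : Finset ℕ) (hD : D ⊆ range b) (h2 : 2 ≤ D.card)
    (hMb : M.Coprime b) : ∃ k₀ : ℕ, ∀ k : ℕ, k₀ ≤ k → ∀ a : ℕ,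
    ({n ∈ T b D k | n % M = a}.card : ℝ) ≤ ((b : ℝ) + 1) * (D.card : ℝ) ^ k / M := by
  classical
  obtain ⟨k₀, hk₀⟩ := sum_HH (M := M) b hb D hD h2 hMb
  have hM : 0 < M := Nat.pos_of_ne_zero (NeZero.ne M)
  have hM0 : (0 : ℝ) < M := by exact_mod_cast hM
  refine ⟨k₀, fun k hk a => ?_⟩
  rw [le_div_iff₀ (by positivity)]
  refine le_trans ?_ (hk₀ k hk)
  have h2 : ∑ α : ZMod M, (ZMod.stdAddChar (-(α * (a : ZMod M))) : ℂ) * HH b D k α =
        ∑ n ∈ T b D k, ∑ α : ZMod M, (ZMod.stdAddChar (α * ((n : ZMod M) - (a : ZMod M))) : ℂ) := by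
    have e : ∀ α : ZMod M, (ZMod.stdAddChar (-(α * (a : ZMod M))) : ℂ) * HH b D k α =
        ∑ n ∈ T b D k, (ZMod.stdAddChar (α * ((n : ZMod M) - (a : ZMod M))) : ℂ) := by
      intro α
      unfold HH
      rw [Finset.mul_sum]
      refine Finset.sum_congr rfl fun n _ => ?_
      rw [← AddChar.map_add_eq_mul]
      congr 1
      ring
    simp only [e]
    exact Finset.sum_comm
  have h3 : ∑ n ∈ T b D k, ∑ α : ZMod M, (ZMod.stdAddChar (α * ((n : ZMod M) - (a : ZMod M))) : ℂ) =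
      ((({n ∈ T b D k | ((n : ℕ) : ZMod M) = (a : ZMod M)}.card : ℝ) * (M : ℝ) : ℝ) : ℂ) := by
    simp only [ind, sub_eq_zero]
    rw [Finset.card_filter]
    push_cast
    rw [Finset.sum_mul]
    refine Finset.sum_congr rfl fun n _ => ?_
    by_cases h1 : (n : ZMod M) = a <;> simp [h1]
  have h4 : (({n ∈ T b D k | ((n : ℕ) : ZMod M) = (a : ZMod M)}.card : ℝ) * (M : ℝ)) =
      ‖∑ α : ZMod M, (ZMod.stdAddChar (-(α * (a : ZMod M))) : ℂ) * HH b D k α‖ := by
    rw [h2, h3, Complex.norm_real, Real.norm_of_nonneg (by positivity)]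
  have h5 : {n ∈ T b D k | n % M = a}.card ≤ {n ∈ T b D k | ((n : ℕ) : ZMod M) = (a : ZMod M)}.card := by
    refine Finset.card_le_card fun n hn => ?_
    rw [Finset.mem_filter] at hn ⊢
    refine ⟨hn.1, ?_⟩
    rw [← hn.2, ZMod.natCast_mod]
  calc (({n ∈ T b D k | n % M = a}.card : ℝ) * (M : ℝ)) ≤
        (({n ∈ T b D k | ((n : ℕ) : ZMod M) = (a : ZMod M)}.card : ℝ) * (M : ℝ)) := by gcongr
    _ = _ := h4
    _ ≤ ∑ α : ZMod M, ‖(ZMod.stdAddChar (-(α * (a : ZMod M))) : ℂ) * HH b D k α‖ := norm_sum_le _ _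
    _ = _ := by
        refine Finset.sum_congr rfl fun α _ => ?_
        rw [norm_mul, AddChar.norm_apply, one_mul]

end

end Pool.Agent.Run7.h662.FCS
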