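import Pool.Agent.Run7.h662.FCS.Mis

set_option autoImplicit false

/-! # Integers with missing digits and their reversals in residue classes -/

namespace Pool.Agent.Run7.h662.FCS

open Finset

variable {M : ℕ} [NeZero M]

/-- the exponential sum -/
noncomputable def GG (b : ℕ) (D : Finset ℕ) (k : ℕ) (α γ : ZMod M) : ℂ :=
  ∑ n ∈ T b D k, ZMod.stdAddChar (α * (n : ZMod M) + γ * ((R b k n : ℕ) : ZMod M))

theorem GG_succ (b : ℕ) (hb : 0 < b) (D : Finset ℕ) (hD : D ⊆ range b) (k : ℕ) (α γ : ZMod M) :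
    GG b D (k + 1) α γ = DD D (α * (b : ZMod M) ^ k + γ) * GG b D k α (γ * b) := by
  classical
  unfold GG DD T
  rw [pow_succ', Finset.sum_filter, sum_split, Finset.sum_filter]
  have h1 : ∑ d ∈ D, (ZMod.stdAddChar ((d : ZMod M) * (α * (b : ZMod M) ^ k + γ)) : ℂ) =
      ∑ d ∈ range b, if d ∈ D then (ZMod.stdAddChar ((d : ZMod M) * (α * (b : ZMod M) ^ k + γ)) : ℂ)
        else 0 := by
    rw [← Finset.sum_filter]
    congr 1
    ext d
    rw [Finset.mem_filter]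
    exact ⟨fun h => ⟨hD h, h⟩, fun h => h.2⟩
  rw [h1, Finset.sum_mul_sum]
  refine Finset.sum_congr rfl fun d hd => Finset.sum_congr rfl fun m hm => ?_
  rw [Finset.mem_range] at hd hm
  rw [if_congr (all_succ b hb D k d m hd hm) rfl rfl]
  by_cases h2 : d ∈ D <;> by_cases h3 : ∀ i < k, m / b ^ i % b ∈ D
  · rw [if_pos ⟨h2, h3⟩, if_pos h2, if_pos h3, R_succ b hb k d m hd hm, ← AddChar.map_add_eq_mul]
    congr 1
    push_cast
    ring
  · rw [if_neg (fun h => h3 h.2), if_neg h3, mul_zero]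
  · rw [if_neg (fun h => h2 h.1), if_neg h2, zero_mul]
  · rw [if_neg (fun h => h2 h.1), if_neg h2, zero_mul]

theorem GG_prod (b : ℕ) (hb : 0 < b) (D : Finset ℕ) (hD : D ⊆ range b) (k : ℕ) (α γ : ZMod M) :
    GG b D k α γ =
      ∏ j ∈ range k, DD D (α * (b : ZMod M) ^ j + γ * (b : ZMod M) ^ (k - 1 - j)) := by
  induction k generalizing γ with
  | zero =>
    unfold GG T R
    simp
  | succ k ih =>
    rw [GG_succ b hb D hD, ih, Finset.prod_range_succ, mul_comm]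
    congr 1
    · refine Finset.prod_congr rfl fun j hj => ?_
      rw [Finset.mem_range] at hj
      congr 2
      rw [mul_assoc, ← pow_succ']
      congr 2
      omega
    · simp

/-- many factors are not trivial or the frequencies lie in a small kernel -/
theorem alternative' (b : ℕ) (hb : 2 ≤ b) (hMb : M.Coprime b) (e L k : ℕ) (hk : 2 * L + 2 ≤ k)
    (α γ : ZMod M) :
    L ≤ ((range k).filter (fun j =>
      (α * (b : ZMod M) ^ j + γ * (b : ZMod M) ^ (k - 1 - j)) * (e : ZMod M) ≠ 0)).card ∨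
    (α * ((e * (b ^ 2 - 1) : ℕ) : ZMod M) = 0 ∧ γ * ((e * (b ^ 2 - 1) : ℕ) : ZMod M) = 0) := by
  classical
  obtain ⟨β, hβ⟩ : ∃ β : ZMod M, β = (b : ZMod M) := ⟨_, rfl⟩
  have hunit : IsUnit β := by
    rw [hβ]
    exact (ZMod.isUnit_iff_coprime b M).2 hMb.symm
  have hcast : ((e * (b ^ 2 - 1) : ℕ) : ZMod M) = (e : ZMod M) * (β ^ 2 - 1) := by
    rw [Nat.cast_mul, Nat.cast_sub (Nat.one_le_pow _ _ (by omega))]
    push_cast
    rw [hβ]
  rw [hcast, ← hβ]
  obtain ⟨u, hu⟩ : ∃ u : ℕ → ZMod M,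
    u = fun j => (α * β ^ j + γ * β ^ (k - 1 - j)) * (e : ZMod M) := ⟨_, rfl⟩
  have huj : ∀ j, (α * β ^ j + γ * β ^ (k - 1 - j)) * (e : ZMod M) = u j := fun j => by rw [hu]
  simp only [huj]
  by_cases hL : L ≤ ((range k).filter (fun j => u j ≠ 0)).card
  · exact Or.inl hL
  right
  push Not at hL
  obtain ⟨j₀, hj₀, hz0, hz1⟩ : ∃ j₀, j₀ + 1 < k ∧ u j₀ = 0 ∧ u (j₀ + 1) = 0 := by
    by_contra hcon
    push Not at hcon
    have hL0 : 0 < L := by omega
    have h1 : (range L).card ≤ ((range k).filter (fun j => u j ≠ 0)).card := by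
      refine Finset.card_le_card_of_injOn
        (fun i => if u (2 * i) = 0 then 2 * i + 1 else 2 * i) ?_ ?_
      · intro i hi
        rw [Finset.mem_coe, Finset.mem_range] at hi
        rw [Finset.mem_coe, Finset.mem_filter, Finset.mem_range]
        beta_reduce
        by_cases h : u (2 * i) = 0
        · rw [if_pos h]
          exact ⟨by omega, hcon (2 * i) (by omega) h⟩
        · rw [if_neg h]
          exact ⟨by omega, h⟩
      · intro i _ i' _ h
        simp only at h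
        split_ifs at h <;> omega
    rw [Finset.card_range] at h1
    omega
  constructor
  · have h1 : β * u (j₀ + 1) - u j₀ = 0 := by rw [hz0, hz1]; ring
    rw [← huj, ← huj] at h1
    have p1 : k - 1 - j₀ = (k - 2 - j₀) + 1 := by omega
    have p2 : k - 1 - (j₀ + 1) = k - 2 - j₀ := by omega
    rw [p1, p2] at h1
    have h2 : (α * ((e : ZMod M) * (β ^ 2 - 1))) * β ^ j₀ = 0 := by
      rw [← h1]
      ring
    exact ((hunit.pow j₀).mul_left_eq_zero).1 h2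
  · have h1 : β * u j₀ - u (j₀ + 1) = 0 := by rw [hz0, hz1]; ring
    rw [← huj, ← huj] at h1
    have p1 : k - 1 - j₀ = (k - 2 - j₀) + 1 := by omega
    have p2 : k - 1 - (j₀ + 1) = k - 2 - j₀ := by omega
    rw [p1, p2] at h1
    have h2 : (γ * ((e : ZMod M) * (β ^ 2 - 1))) * β ^ (k - 2 - j₀) = 0 := by
      rw [← h1]
      ring
    exact ((hunit.pow _).mul_left_eq_zero).1 h2

theorem sum_GG (b : ℕ) (hb : 2 ≤ b) (D : Finset ℕ) (hD : D ⊆ range b) (h2 : 2 ≤ D.card)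
    (hMb : M.Coprime b) : ∃ k₀ : ℕ, ∀ k : ℕ, k₀ ≤ k →
    ∑ α : ZMod M, ∑ γ : ZMod M, ‖GG b D k α γ‖ ≤ ((b : ℝ) ^ 6 + 1) * (D.card : ℝ) ^ k := by
  classical
  obtain ⟨d₁, h₁, d₂, h₂, hne⟩ := Finset.one_lt_card.1 (show 1 < D.card by omega)
  wlog hlt : d₂ < d₁ generalizing d₁ d₂
  · exact this d₂ h₂ d₁ h₁ hne.symm (by omega)
  have hM : 0 < M := Nat.pos_of_ne_zero (NeZero.ne M)
  have hM0 : (0 : ℝ) < M := by exact_mod_cast hM
  have hD0 : (0 : ℝ) < D.card := by exact_mod_cast (by omega : 0 < D.card)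
  have hdb : d₁ < b := Finset.mem_range.1 (hD h₁)
  obtain ⟨ρ, hρ0, hρ1, hρ⟩ : ∃ ρ : ℝ, 0 < ρ ∧ ρ < 1 ∧ ∀ u : ZMod M,
      (d₁ : ZMod M) * u ≠ (d₂ : ZMod M) * u → ‖DD D u‖ ≤ D.card * ρ := by
    by_cases hn : (univ.filter (fun u : ZMod M => (d₁ : ZMod M) * u ≠ (d₂ : ZMod M) * u)).Nonempty
    · obtain ⟨u₀, hu₀, hmax⟩ := Finset.exists_max_image _ (fun u : ZMod M => ‖DD D u‖) hn
      rw [Finset.mem_filter] at hu₀
      have h1 := norm_DD_lt D d₁ d₂ h₁ h₂ u₀ hu₀.2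
      have h4 : ‖DD D u₀‖ / D.card < 1 := by rw [div_lt_one hD0]; exact h1
      refine ⟨(‖DD D u₀‖ / D.card + 1) / 2, by positivity, by linarith, fun u hu => ?_⟩
      have h2 := hmax u (by rw [Finset.mem_filter]; exact ⟨Finset.mem_univ _, hu⟩)
      have h3 : ‖DD D u₀‖ = D.card * (‖DD D u₀‖ / D.card) := by field_simp
      calc ‖DD D u‖ ≤ ‖DD D u₀‖ := h2
        _ = D.card * (‖DD D u₀‖ / D.card) := h3
        _ ≤ _ := mul_le_mul_of_nonneg_left (by linarith) hD0.le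
    · refine ⟨1 / 2, by norm_num, by norm_num, fun u hu => ?_⟩
      exact absurd ⟨u, by rw [Finset.mem_filter]; exact ⟨Finset.mem_univ _, hu⟩⟩ hn
  obtain ⟨L, hL⟩ := exists_pow_lt_of_lt_one (show (0 : ℝ) < 1 / (M : ℝ) ^ 2 by positivity) hρ1
  refine ⟨2 * L + 2, fun k hk => ?_⟩
  obtain ⟨f, hf⟩ : ∃ f : ℕ, f = (d₁ - d₂) * (b ^ 2 - 1) := ⟨_, rfl⟩
  have hb4 : 4 ≤ b ^ 2 := by
    have : 2 ^ 2 ≤ b ^ 2 := Nat.pow_le_pow_left hb 2
    omega
  have hf0 : 0 < f := by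
    rw [hf]
    exact Nat.mul_pos (by omega) (by omega)
  have hf3 : f ≤ b ^ 3 := by
    rw [hf, pow_succ' b 2]
    exact Nat.mul_le_mul (by omega) (by omega)
  have hbd : ∀ α γ : ZMod M, ‖GG b D k α γ‖ ≤ (D.card : ℝ) ^ k := by
    intro α γ
    rw [GG_prod b (by omega) D hD, norm_prod]
    refine (Finset.prod_le_prod (fun _ _ => norm_nonneg _) fun j _ => norm_DD_le D _).trans ?_
    rw [Finset.prod_const, Finset.card_range]
  have hpt : ∀ α γ : ZMod M, ‖GG b D k α γ‖ ≤ (D.card : ℝ) ^ k / (M : ℝ) ^ 2 +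
      (if α * (f : ZMod M) = 0 then 1 else 0) *
        ((if γ * (f : ZMod M) = 0 then 1 else 0) * (D.card : ℝ) ^ k) := by
    intro α γ
    rcases alternative' b hb hMb (d₁ - d₂) L k hk α γ with h | h
    · have h1 : ‖GG b D k α γ‖ ≤ (D.card : ℝ) ^ k / (M : ℝ) ^ 2 := by
        rw [GG_prod b (by omega) D hD, norm_prod]
        have h2 : ∀ j ∈ range k,
            ‖DD D (α * (b : ZMod M) ^ j + γ * (b : ZMod M) ^ (k - 1 - j))‖ ≤
            D.card * (if (α * (b : ZMod M) ^ j + γ * (b : ZMod M) ^ (k - 1 - j)) *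
              ((d₁ - d₂ : ℕ) : ZMod M) ≠ 0 then ρ else 1) := by
          intro j _
          split_ifs with h3
          · apply hρ
            intro h4
            apply h3
            rw [Nat.cast_sub hlt.le]
            linear_combination h4
          · rw [mul_one]; exact norm_DD_le D _
        refine (Finset.prod_le_prod (fun _ _ => norm_nonneg _) h2).trans ?_
        rw [Finset.prod_mul_distrib, Finset.prod_const, Finset.card_range, Finset.prod_ite,
          Finset.prod_const, Finset.prod_const_one, mul_one, div_eq_mul_one_div]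
        refine mul_le_mul_of_nonneg_left ?_ (by positivity)
        exact (pow_le_pow_of_le_one hρ0.le hρ1.le h).trans hL.le
      refine h1.trans (le_add_of_nonneg_right ?_)
      split_ifs <;> positivity
    · rw [← hf] at h
      rw [if_pos h.1, if_pos h.2]
      have : (0 : ℝ) ≤ (D.card : ℝ) ^ k / (M : ℝ) ^ 2 := by positivity
      linarith [hbd α γ]
  refine (Finset.sum_le_sum fun α _ => Finset.sum_le_sum fun γ _ => hpt α γ).trans ?_
  simp only [Finset.sum_add_distrib, Finset.sum_const, Finset.card_univ, ZMod.card, nsmul_eq_mul]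
  rw [← Finset.sum_mul_sum, ← Finset.sum_mul, Finset.sum_boole]
  have hc := card_ker (M := M) f hf0
  have h3 : (M : ℝ) * ((M : ℝ) * ((D.card : ℝ) ^ k / (M : ℝ) ^ 2)) = (D.card : ℝ) ^ k := by
    field_simp
  rw [h3]
  have h4 : (({x : ZMod M | x * (f : ZMod M) = 0} : Finset (ZMod M)).card : ℝ) ≤ (b : ℝ) ^ 3 := by
    exact_mod_cast hc.trans hf3
  calc (D.card : ℝ) ^ k + (({x : ZMod M | x * (f : ZMod M) = 0} : Finset (ZMod M)).card : ℝ) *
        ((({x : ZMod M | x * (f : ZMod M) = 0} : Finset (ZMod M)).card : ℝ) * (D.card : ℝ) ^ k) ≤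
        (D.card : ℝ) ^ k + (b : ℝ) ^ 3 * ((b : ℝ) ^ 3 * (D.card : ℝ) ^ k) := by gcongr
    _ = _ := by ring

/-- strings of `k` digits from `D` in a given class, with a reversal in a given class -/
theorem count_GG (b : ℕ) (hb : 2 ≤ b) (D : Finset ℕ) (hD : D ⊆ range b) (h2 : 2 ≤ D.card)
    (hMb : M.Coprime b) : ∃ k₀ : ℕ, ∀ k : ℕ, k₀ ≤ k → ∀ a c : ℕ,
    ({n ∈ T b D k | n % M = a ∧ R b k n % M = c}.card : ℝ) ≤
      ((b : ℝ) ^ 6 + 1) * (D.card : ℝ) ^ k / (M : ℝ) ^ 2 := by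
  classical
  obtain ⟨k₀, hk₀⟩ := sum_GG (M := M) b hb D hD h2 hMb
  have hM : 0 < M := Nat.pos_of_ne_zero (NeZero.ne M)
  have hM0 : (0 : ℝ) < M := by exact_mod_cast hM
  refine ⟨k₀, fun k hk a c => ?_⟩
  rw [le_div_iff₀ (by positivity)]
  refine le_trans ?_ (hk₀ k hk)
  obtain ⟨φ, hφ⟩ : ∃ φ : ZMod M → ZMod M → ℂ, φ = fun α γ =>
    (ZMod.stdAddChar (-(α * (a : ZMod M))) * ZMod.stdAddChar (-(γ * (c : ZMod M))) : ℂ) := ⟨_, rfl⟩
  have hφn : ∀ α γ, ‖φ α γ‖ = 1 := by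
    intro α γ
    rw [hφ]
    show ‖(ZMod.stdAddChar (-(α * (a : ZMod M))) * ZMod.stdAddChar (-(γ * (c : ZMod M))) : ℂ)‖ = 1
    rw [norm_mul, AddChar.norm_apply, AddChar.norm_apply, mul_one]
  have h2 : ∑ α : ZMod M, ∑ γ : ZMod M, φ α γ * GG b D k α γ =
        ∑ n ∈ T b D k, (∑ α : ZMod M, (ZMod.stdAddChar (α * ((n : ZMod M) - (a : ZMod M))) : ℂ)) *
          ∑ γ : ZMod M, (ZMod.stdAddChar (γ * (((R b k n : ℕ) : ZMod M) - (c : ZMod M))) : ℂ) := by
    have e : ∀ α γ : ZMod M, φ α γ * GG b D k α γ = ∑ n ∈ T b D k,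
        (ZMod.stdAddChar (α * ((n : ZMod M) - (a : ZMod M))) : ℂ) *
          (ZMod.stdAddChar (γ * (((R b k n : ℕ) : ZMod M) - (c : ZMod M))) : ℂ) := by
      intro α γ
      rw [hφ]
      unfold GG
      rw [Finset.mul_sum]
      refine Finset.sum_congr rfl fun n _ => ?_
      show (ZMod.stdAddChar (-(α * (a : ZMod M))) * ZMod.stdAddChar (-(γ * (c : ZMod M))) : ℂ) * _ = _
      rw [← AddChar.map_add_eq_mul, ← AddChar.map_add_eq_mul, ← AddChar.map_add_eq_mul]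
      congr 1
      ring
    simp only [e, Finset.sum_mul_sum]
    symm
    exact Finset.sum_comm.trans (Finset.sum_congr rfl fun α _ => Finset.sum_comm)
  have h3 : ∑ n ∈ T b D k, (∑ α : ZMod M, (ZMod.stdAddChar (α * ((n : ZMod M) - (a : ZMod M))) : ℂ)) *
      ∑ γ : ZMod M, (ZMod.stdAddChar (γ * (((R b k n : ℕ) : ZMod M) - (c : ZMod M))) : ℂ) =
      ((({n ∈ T b D k | ((n : ℕ) : ZMod M) = (a : ZMod M) ∧
        ((R b k n : ℕ) : ZMod M) = (c : ZMod M)}.card : ℝ) * (M : ℝ) ^ 2 : ℝ) : ℂ) := by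
    simp only [ind, sub_eq_zero]
    rw [Finset.card_filter]
    push_cast
    rw [Finset.sum_mul]
    refine Finset.sum_congr rfl fun n _ => ?_
    by_cases h1 : (n : ZMod M) = a <;> by_cases h2 : ((R b k n : ℕ) : ZMod M) = c <;>
      simp [h1, h2, sq]
  have h4 : (({n ∈ T b D k | ((n : ℕ) : ZMod M) = (a : ZMod M) ∧
      ((R b k n : ℕ) : ZMod M) = (c : ZMod M)}.card : ℝ) *
        (M : ℝ) ^ 2) = ‖∑ α : ZMod M, ∑ γ : ZMod M, φ α γ * GG b D k α γ‖ := by
    rw [h2, h3, Complex.norm_real, Real.norm_of_nonneg (by positivity)]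
  have h5 : {n ∈ T b D k | n % M = a ∧ R b k n % M = c}.card ≤
      {n ∈ T b D k | ((n : ℕ) : ZMod M) = (a : ZMod M) ∧
        ((R b k n : ℕ) : ZMod M) = (c : ZMod M)}.card := by
    refine Finset.card_le_card fun n hn => ?_
    rw [Finset.mem_filter] at hn ⊢
    refine ⟨hn.1, ?_, ?_⟩
    · rw [← hn.2.1, ZMod.natCast_mod]
    · rw [← hn.2.2, ZMod.natCast_mod]
  calc (({n ∈ T b D k | n % M = a ∧ R b k n % M = c}.card : ℝ) * (M : ℝ) ^ 2) ≤
        (({n ∈ T b D k | ((n : ℕ) : ZMod M) = (a : ZMod M) ∧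
          ((R b k n : ℕ) : ZMod M) = (c : ZMod M)}.card : ℝ) * (M : ℝ) ^ 2) := by gcongr
    _ = ‖∑ α : ZMod M, ∑ γ : ZMod M, φ α γ * GG b D k α γ‖ := h4
    _ ≤ ∑ α : ZMod M, ∑ γ : ZMod M, ‖φ α γ * GG b D k α γ‖ :=
        (norm_sum_le _ _).trans (Finset.sum_le_sum fun α _ => norm_sum_le _ _)
    _ = _ := by
        refine Finset.sum_congr rfl fun α _ => Finset.sum_congr rfl fun γ _ => ?_
        rw [norm_mul, hφn, one_mul]

end Pool.Agent.Run7.h662.FCS
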