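import Mathlib

set_option autoImplicit false

/-! # Digit reversal: recursion, and two facts on `ZMod M` -/

namespace Pool.Agent.Run7.h662.FCS

open Finset

/-- the reversal of the lowest `k` digits -/
def R (b : ℕ) : ℕ → ℕ → ℕ
  | 0, _ => 0
  | k + 1, n => (n / b ^ k) % b + b * R b k n

section algebra

variable {M : ℕ} [NeZero M]

theorem sum_split (b m : ℕ) (F : ℕ → ℂ) :
    ∑ n ∈ range (b * m), F n = ∑ d ∈ range b, ∑ j ∈ range m, F (d * m + j) := by
  induction b with
  | zero => simp
  | succ b ih =>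
    rw [Finset.sum_range_succ, ← ih, Nat.succ_mul, Finset.sum_range_add]

theorem R_add (b : ℕ) (hb : 0 < b) : ∀ (k m d K : ℕ), k ≤ K → R b k (d * b ^ K + m) = R b k m := by
  intro k
  induction k with
  | zero => intros; rfl
  | succ k ih =>
    intro m d K hk
    unfold R
    rw [ih m d K (by omega)]
    congr 1
    obtain ⟨j, rfl⟩ : ∃ j, K = k + 1 + j := ⟨K - (k + 1), by omega⟩
    have h1 : d * b ^ (k + 1 + j) + m = m + b ^ k * (b * (d * b ^ j)) := by ring
    rw [h1, Nat.add_mul_div_left _ _ (pow_pos hb k), Nat.add_mul_mod_self_left]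

theorem R_succ (b : ℕ) (hb : 0 < b) (k d m : ℕ) (hd : d < b) (hm : m < b ^ k) :
    R b (k + 1) (d * b ^ k + m) = d + b * R b k m := by
  have h1 : R b (k + 1) (d * b ^ k + m) =
      ((d * b ^ k + m) / b ^ k) % b + b * R b k (d * b ^ k + m) := rfl
  rw [h1, R_add b hb k m d k le_rfl]
  congr 1
  have h2 : (d * b ^ k + m) / b ^ k = d := by
    rw [add_comm, Nat.add_mul_div_right _ _ (pow_pos hb k), Nat.div_eq_of_lt hm, zero_add]
  rw [h2, Nat.mod_eq_of_lt hd]

/-- the annihilator of `c > 0` has at most `c` elements -/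
theorem card_ker (c : ℕ) (hc : 0 < c) :
    (univ.filter (fun x : ZMod M => x * (c : ZMod M) = 0)).card ≤ c := by
  classical
  have hM : 0 < M := Nat.pos_of_ne_zero (NeZero.ne M)
  refine le_trans ?_ (Finset.card_range c).le
  refine Finset.card_le_card_of_injOn (fun x => x.val * c / M) ?_ ?_
  · intro x hx
    rw [Finset.mem_coe, Finset.mem_range, Nat.div_lt_iff_lt_mul hM, mul_comm c M]
    exact Nat.mul_lt_mul_of_pos_right (ZMod.val_lt x) hc
  · intro x hx y hy h
    have key : ∀ z : ZMod M, z * (c : ZMod M) = 0 → M ∣ z.val * c := by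
      intro z hz
      rw [← ZMod.natCast_eq_zero_iff]
      push_cast
      rw [ZMod.natCast_zmod_val]
      exact hz
    rw [Finset.mem_coe, Finset.mem_filter] at hx hy
    have h1 := key x hx.2
    have h2 := key y hy.2
    simp only at h
    have h3 : x.val * c = y.val * c := by
      rw [← Nat.div_mul_cancel h1, ← Nat.div_mul_cancel h2, h]
    exact ZMod.val_injective M (Nat.eq_of_mul_eq_mul_right hc h3)

/-- the indicator function of zero -/
theorem ind (x : ZMod M) : ∑ α : ZMod M, (ZMod.stdAddChar (α * x) : ℂ) = if x = 0 then (M : ℂ) else 0 := by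
  have h := AddChar.sum_mulShift x (ZMod.isPrimitive_stdAddChar M)
  rw [ZMod.card] at h
  rw [h]
  split_ifs <;> simp

end algebra

end Pool.Agent.Run7.h662.FCS
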